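import Pool.Agent.helper65.CR.Pull

/-!
# From pseudo-Einstein data to good forms
-/

open Filter Topology Set Metric
open scoped ContDiff ComplexConjugate

namespace Pool.Agent.helper65.CR

/-- The pulled back data of a pseudo-Einstein contact form at the point `p`. -/
structure LPE (th e o : Form1) (hh RR AA : ℂ × ℂ → ℂ) (p : ℂ × ℂ) : Prop where
  mem : p ∈ S
  sth : ContDiffAt ℝ ∞ th p
  se : ContDiffAt ℝ ∞ e p
  so : ContDiffAt ℝ ∞ o p
  shh : ContDiffAt ℝ ∞ hh p
  sRR : ContDiffAt ℝ ∞ RR p
  real : ∀ v, conj (th p v) = th p v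
  hreal : conj (hh p) = hh p
  rreal : conj (RR p) = RR p
  hne : hh p ≠ 0
  rho_ne : aT th p ≠ 0
  g_ne : aL e p + Complex.I * p.2 * aT e p ≠ 0
  thB : aB th p = Complex.I * (conj p.2 * aT th p)
  eB : aB e p = Complex.I * (conj p.2 * aT e p)
  levi : ∀ ζ x ζ' x', extD th p (tv p ζ x) (tv p ζ' x') = Complex.I * hh p *
    (e p (tv p ζ x) * conj (e p (tv p ζ' x')) - e p (tv p ζ' x') * conj (e p (tv p ζ x)))
  torsion : ∀ ζ x ζ' x', extD e p (tv p ζ x) (tv p ζ' x') =
    e p (tv p ζ x) * o p (tv p ζ' x') - e p (tv p ζ' x') * o p (tv p ζ x) +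
    AA p * (th p (tv p ζ x) * conj (e p (tv p ζ' x')) - th p (tv p ζ' x') * conj (e p (tv p ζ x)))
  metric : ∀ ζ x, der ζ x hh p = hh p * (o p (tv p ζ x) + conj (o p (tv p ζ x)))
  pe : ∀ ζ x ζ' x', Complex.I * extD o p (tv p ζ x) (tv p ζ' x') =
    extD (fun y => RR y • th y) p (tv p ζ x) (tv p ζ' x')

section

variable {th e o : Form1} {hh RR AA : ℂ × ℂ → ℂ} {p : ℂ × ℂ}

theorem conj_aL (α : Form1) (p : ℂ × ℂ) : conj (aL α p) =
    (1 / 2) * (conj (α p (tv p 1 0)) + Complex.I * conj (α p (tv p Complex.I 0))) := by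
  unfold aL
  simp only [map_mul, map_sub, map_div₀, map_one, map_ofNat, Complex.conj_I]
  ring

theorem conj_aB (α : Form1) (p : ℂ × ℂ) : conj (aB α p) =
    (1 / 2) * (conj (α p (tv p 1 0)) - Complex.I * conj (α p (tv p Complex.I 0))) := by
  unfold aB
  simp only [map_mul, map_add, map_div₀, map_one, map_ofNat, Complex.conj_I]
  ring

theorem LPE.conj_aT_th (h : LPE th e o hh RR AA p) : conj (aT th p) = aT th p := h.real _

theorem LPE.aL_th (h : LPE th e o hh RR AA p) : aL th p = -Complex.I * (p.2 * aT th p) := by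
  have h1 : aL th p = conj (aB th p) := by
    rw [conj_aB, h.real, h.real]
    rfl
  rw [h1, h.thB, map_mul, map_mul, Complex.conj_I, Complex.conj_conj, h.conj_aT_th]

theorem LPE.conj_eB (h : LPE th e o hh RR AA p) :
    conj (aB e p) = -Complex.I * (p.2 * conj (aT e p)) := by
  rw [h.eB, map_mul, map_mul, Complex.conj_I, Complex.conj_conj]

theorem LPE.levi_TB (h : LPE th e o hh RR AA p) : dTB th p =
    Complex.I * hh p * (aT e p * conj (aL e p) - aB e p * conj (aT e p)) := by
  rw [dTB, h.levi, h.levi, conj_aL]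
  unfold aT aB
  ring

theorem LPE.levi_TL (h : LPE th e o hh RR AA p) : dTL th p =
    Complex.I * hh p * (aT e p * conj (aB e p) - aL e p * conj (aT e p)) := by
  rw [dTL, h.levi, h.levi, conj_aB]
  unfold aT aL
  ring

theorem LPE.levi_LB (h : LPE th e o hh RR AA p) : dLB th p =
    Complex.I * hh p * (aL e p * conj (aL e p) - aB e p * conj (aB e p)) := by
  rw [dLB, h.levi, conj_aL, conj_aB]
  unfold aL aB
  ring

theorem LPE.tor_TB (h : LPE th e o hh RR AA p) : dTB e p =
    aT e p * aB o p - aB e p * aT o p +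
      AA p * (aT th p * conj (aL e p) - aB th p * conj (aT e p)) := by
  rw [dTB, h.torsion, h.torsion, conj_aL]
  unfold aT aB
  ring

theorem LPE.tor_TL (h : LPE th e o hh RR AA p) : dTL e p =
    aT e p * aL o p - aL e p * aT o p +
      AA p * (aT th p * conj (aB e p) - aL th p * conj (aT e p)) := by
  rw [dTL, h.torsion, h.torsion, conj_aB]
  unfold aT aL
  ring

theorem LPE.tor_LB (h : LPE th e o hh RR AA p) : dLB e p =
    aL e p * aB o p - aB e p * aL o p +
      AA p * (aL th p * conj (aL e p) - aB th p * conj (aB e p)) := by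
  rw [dLB, h.torsion, conj_aL, conj_aB]
  unfold aL aB
  ring

/-- The function `g = e(Z)`. -/
noncomputable def gg (e : Form1) (p : ℂ × ℂ) : ℂ := aL e p + Complex.I * (p.2 * aT e p)

/-- The derivatives of `ρ` and the relation between `ρ` and `g`. -/
theorem rho_eqs (hq : p ∈ S) (h : ∀ᶠ p' in 𝓝[S] p, LPE th e o hh RR AA p') :
    DB (aT th) p - Complex.I * conj p.2 * DT (aT th) p =
      3 * conj p.2 * aT th p - Complex.I * hh p * aT e p * conj (gg e p) ∧
    ell p * aT th p = hh p * gg e p * conj (gg e p) := by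
  have hp : LPE th e o hh RR AA p := h.self_of_nhdsWithin hq
  have hd : DifferentiableAt ℝ th p := hp.sth.differentiableAt (by simp)
  have dT := diff_aT hd
  have db := diff_snd p
  have dcb := diff_csnd p
  have d1 : DifferentiableAt ℝ (fun p => conj p.2 * aT th p) p := dcb.mul dT
  have d1' : DifferentiableAt ℝ (fun p => Complex.I * (conj p.2 * aT th p)) p := d1.const_mul _
  have d2 : DifferentiableAt ℝ (fun p => p.2 * aT th p) p := db.mul dT
  have d2' : DifferentiableAt ℝ (fun p => (-Complex.I) * (p.2 * aT th p)) p := d2.const_mul _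
  have eB : ∀ᶠ p' in 𝓝[S] p, aB th p' = Complex.I * (conj p'.2 * aT th p') :=
    h.mono fun p' hp' => hp'.thB
  have eL : ∀ᶠ p' in 𝓝[S] p, aL th p' = (-Complex.I) * (p'.2 * aT th p') :=
    h.mono fun p' hp' => hp'.aL_th
  have b1 : DT (aB th) p = Complex.I * (conj p.2 * DT (aT th) p +
      aT th p * (-Complex.I * conj p.2)) := by
    rw [DT_congr hq (diff_aB hd) d1' eB, DT_const_mul d1, DT_mul dcb dT, DT_csnd]
  have b2 : DL (aB th) p = Complex.I * (conj p.2 * DL (aT th) p) := by
    rw [DL_congr hq (diff_aB hd) d1' eB, DL_const_mul d1, DL_mul dcb dT, DL_csnd]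
    ring
  have l1 : DT (aL th) p = (-Complex.I) * (p.2 * DT (aT th) p + aT th p * (Complex.I * p.2)) := by
    rw [DT_congr hq (diff_aL hd) d2' eL, DT_const_mul d2, DT_mul db dT, DT_snd]
  have l2 : DB (aL th) p = (-Complex.I) * (p.2 * DB (aT th) p) := by
    rw [DB_congr hq (diff_aL hd) d2' eL, DB_const_mul d2, DB_mul db dT, DB_snd]
    ring
  have c1 := ext_TB hd
  have c2 := ext_TL hd
  have c3 := ext_LB hd
  rw [hp.levi_TB, b1, hp.thB, hp.eB] at c1
  rw [hp.levi_TL, l1, hp.aL_th, hp.conj_eB] at c2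
  rw [hp.levi_LB, b2, l2, hp.eB, map_mul, map_mul, Complex.conj_I, Complex.conj_conj] at c3
  have hg : conj (gg e p) = conj (aL e p) - Complex.I * (conj p.2 * conj (aT e p)) := by
    unfold gg
    rw [map_add, map_mul, map_mul, Complex.conj_I]
    ring
  rw [hg]
  unfold gg ell
  have hI := Complex.I_sq
  generalize DT (aT th) p = x1 at *
  generalize DB (aT th) p = x2 at *
  generalize DL (aT th) p = x3 at *
  generalize aT th p = x4 at *
  generalize conj (aL e p) = x5 at *
  generalize conj (aT e p) = x6 at *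
  generalize aL e p = x7 at *
  generalize aT e p = x8 at *
  generalize conj p.2 = x9 at *
  generalize hh p = x10 at *
  generalize p.2 = x11 at *
  generalize Complex.I = x12 at *
  constructor
  · grind
  · grind

/-- The derivative of `g`. -/
theorem g_eq (hq : p ∈ S) (h : ∀ᶠ p' in 𝓝[S] p, LPE th e o hh RR AA p') :
    DB (gg e) p - Complex.I * conj p.2 * DT (gg e) p =
      -gg e p * (aB o p - Complex.I * conj p.2 * aT o p) - 2 * conj p.2 * gg e p +
        Complex.I * ell p * aT e p := by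
  have hp : LPE th e o hh RR AA p := h.self_of_nhdsWithin hq
  have hd : DifferentiableAt ℝ e p := hp.se.differentiableAt (by simp)
  have dT := diff_aT hd
  have dL := diff_aL hd
  have db := diff_snd p
  have dcb := diff_csnd p
  have d1 : DifferentiableAt ℝ (fun p => conj p.2 * aT e p) p := dcb.mul dT
  have d1' : DifferentiableAt ℝ (fun p => Complex.I * (conj p.2 * aT e p)) p := d1.const_mul _
  have d2 : DifferentiableAt ℝ (fun p => p.2 * aT e p) p := db.mul dT
  have d2' : DifferentiableAt ℝ (fun p => Complex.I * (p.2 * aT e p)) p := d2.const_mul _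
  have eB : ∀ᶠ p' in 𝓝[S] p, aB e p' = Complex.I * (conj p'.2 * aT e p') :=
    h.mono fun p' hp' => hp'.eB
  have b1 : DT (aB e) p = Complex.I * (conj p.2 * DT (aT e) p +
      aT e p * (-Complex.I * conj p.2)) := by
    rw [DT_congr hq (diff_aB hd) d1' eB, DT_const_mul d1, DT_mul dcb dT, DT_csnd]
  have b2 : DL (aB e) p = Complex.I * (conj p.2 * DL (aT e) p) := by
    rw [DL_congr hq (diff_aB hd) d1' eB, DL_const_mul d1, DL_mul dcb dT, DL_csnd]
    ring
  have g1 : DB (gg e) p = DB (aL e) p + Complex.I * (p.2 * DB (aT e) p) := by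
    have : gg e = fun p => aL e p + Complex.I * (p.2 * aT e p) := rfl
    rw [this, DB_add dL d2', DB_const_mul d2, DB_mul db dT, DB_snd]
    ring
  have g2 : DT (gg e) p = DT (aL e) p + Complex.I * (p.2 * DT (aT e) p +
      aT e p * (Complex.I * p.2)) := by
    have : gg e = fun p => aL e p + Complex.I * (p.2 * aT e p) := rfl
    rw [this, DT_add dL d2', DT_const_mul d2, DT_mul db dT, DT_snd]
  have c1 := ext_TB hd
  have c2 := ext_TL hd
  have c3 := ext_LB hd
  rw [hp.tor_TB, b1, hp.eB, hp.thB] at c1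
  rw [hp.tor_TL, hp.aL_th, hp.conj_eB] at c2
  rw [hp.tor_LB, b2, hp.eB, hp.thB, hp.aL_th, map_mul, map_mul, Complex.conj_I,
    Complex.conj_conj] at c3
  rw [g1, g2]
  unfold gg ell
  have hI := Complex.I_sq
  generalize DT (aT e) p = x1 at *
  generalize DB (aT e) p = x2 at *
  generalize DL (aT e) p = x3 at *
  generalize DT (aL e) p = x13 at *
  generalize DB (aL e) p = x14 at *
  generalize aT th p = x4 at *
  generalize conj (aL e p) = x5 at *
  generalize conj (aT e p) = x6 at *
  generalize aL e p = x7 at *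
  generalize aT e p = x8 at *
  generalize conj p.2 = x9 at *
  generalize AA p = x10 at *
  generalize p.2 = x11 at *
  generalize aT o p = x15 at *
  generalize aB o p = x16 at *
  generalize aL o p = x17 at *
  generalize Complex.I = x12 at *
  grind

/-- The function `G = ρ g`. -/
noncomputable def GG (th e : Form1) (p : ℂ × ℂ) : ℂ := aT th p * gg e p

theorem smooth_ev {α : Form1} (h : ContDiffAt ℝ ∞ α p) (ζ : ℂ) (x : ℝ) :
    ContDiffAt ℝ ∞ (fun p => α p (tv p ζ x)) p := h.clm_apply (contDiff_tv ζ x).contDiffAt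

theorem smooth_aT {α : Form1} (h : ContDiffAt ℝ ∞ α p) : ContDiffAt ℝ ∞ (aT α) p :=
  smooth_ev h 0 1

theorem smooth_aL {α : Form1} (h : ContDiffAt ℝ ∞ α p) : ContDiffAt ℝ ∞ (aL α) p :=
  contDiffAt_const.mul ((smooth_ev h 1 0).sub (contDiffAt_const.mul (smooth_ev h Complex.I 0)))

theorem smooth_gg {α : Form1} (h : ContDiffAt ℝ ∞ α p) : ContDiffAt ℝ ∞ (gg α) p :=
  (smooth_aL h).add (contDiffAt_const.mul (contDiffAt_snd.mul (smooth_aT h)))

theorem LPE.smooth_GG (h : LPE th e o hh RR AA p) : ContDiffAt ℝ ∞ (GG th e) p :=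
  (smooth_aT h.sth).mul (smooth_gg h.se)

theorem LPE.GG_ne (h : LPE th e o hh RR AA p) : GG th e p ≠ 0 := by
  refine mul_ne_zero h.rho_ne ?_
  have := h.g_ne
  unfold gg
  rwa [← mul_assoc]

theorem GG_eq (hq : p ∈ S) (h : ∀ᶠ p' in 𝓝[S] p, LPE th e o hh RR AA p') :
    DB (GG th e) p - Complex.I * conj p.2 * DT (GG th e) p =
      GG th e p * (conj p.2 - (aB o p - Complex.I * conj p.2 * aT o p)) := by
  have hp : LPE th e o hh RR AA p := h.self_of_nhdsWithin hq
  have d1 : DifferentiableAt ℝ (aT th) p := (smooth_aT hp.sth).differentiableAt (by simp)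
  have d2 : DifferentiableAt ℝ (gg e) p := (smooth_gg hp.se).differentiableAt (by simp)
  obtain ⟨e1, e2⟩ := rho_eqs hq h
  have e3 := g_eq hq h
  have e4 : DB (GG th e) p = aT th p * DB (gg e) p + gg e p * DB (aT th) p := DB_mul d1 d2
  have e5 : DT (GG th e) p = aT th p * DT (gg e) p + gg e p * DT (aT th) p := DT_mul d1 d2
  rw [e4, e5, GG]
  linear_combination aT th p * e3 + gg e p * e1 + Complex.I * aT e p * e2

/-- The data of the function `W = (3/2) log |ρ| + (1/2) log ℓ`. -/
structure LW (th : Form1) (W : ℂ × ℂ → ℂ) (p : ℂ × ℂ) : Prop where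
  smooth : ContDiffAt ℝ ∞ W p
  real : ∀ ζ x, conj (der ζ x W p) = der ζ x W p
  eq : ∀ ζ x, 2 * der ζ x W p * (aT th p * ell p) =
    3 * der ζ x (aT th) p * ell p + aT th p * der ζ x ell p

theorem real_part {W : ℂ × ℂ → ℂ} (hW : LW th W p) (hq : p ∈ S)
    (h : ∀ᶠ p' in 𝓝[S] p, LPE th e o hh RR AA p') {ζ : ℂ} {x : ℝ}
    (hu : Complex.normSq ζ + x ^ 2 = 1) :
    o p (tv p ζ x) + conj (o p (tv p ζ x)) + (GG th e p)⁻¹ * der ζ x (GG th e) p +
      conj ((GG th e p)⁻¹ * der ζ x (GG th e) p) = 2 * der ζ x W p := by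
  have hp : LPE th e o hh RR AA p := h.self_of_nhdsWithin hq
  have dG : DifferentiableAt ℝ (GG th e) p := hp.smooth_GG.differentiableAt (by simp)
  have dGc : DifferentiableAt ℝ (fun p => conj (GG th e p)) p :=
    (contDiff_conj.differentiable (n := 1) (by simp) _).comp p dG
  have dh : DifferentiableAt ℝ hh p := hp.shh.differentiableAt (by simp)
  have dr : DifferentiableAt ℝ (aT th) p := (smooth_aT hp.sth).differentiableAt (by simp)
  have dl : DifferentiableAt ℝ ell p := (ell_smooth).differentiableAt hq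
  have d1 : DifferentiableAt ℝ (fun p => GG th e p * conj (GG th e p)) p := dG.mul dGc
  have d2 : DifferentiableAt ℝ (fun p => aT th p * aT th p) p := dr.mul dr
  have d3 : DifferentiableAt ℝ (fun p => aT th p * aT th p * aT th p) p := d2.mul dr
  have key : ∀ᶠ p' in 𝓝[S] p, GG th e p' * conj (GG th e p') * hh p' =
      aT th p' * aT th p' * aT th p' * ell p' := by
    have h3 := eventually_eventually_nhdsWithin.2 h
    filter_upwards [h3, self_mem_nhdsWithin] with p' hp' hpS
    have hl : LPE th e o hh RR AA p' := hp'.self_of_nhdsWithin hpS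
    have e2 := (rho_eqs hpS hp').2
    have e3 := hl.conj_aT_th
    unfold GG
    rw [map_mul, e3]
    linear_combination (-(aT th p' * aT th p')) * e2
  have e1 := der_congr_S hq (d1.mul dh) (d3.mul dl) key hu
  have f1 : der ζ x (fun p => GG th e p * conj (GG th e p) * hh p) p =
      GG th e p * conj (GG th e p) * der ζ x hh p + hh p * (GG th e p * conj (der ζ x (GG th e) p) +
        conj (GG th e p) * der ζ x (GG th e) p) := by
    rw [der_mul d1 dh, der_mul dG dGc, der_conj dG]
  have f2 : der ζ x (fun p => aT th p * aT th p * aT th p * ell p) p =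
      aT th p * aT th p * aT th p * der ζ x ell p + ell p * (aT th p * aT th p *
        der ζ x (aT th) p + aT th p * (aT th p * der ζ x (aT th) p +
          aT th p * der ζ x (aT th) p)) := by
    rw [der_mul d3 dl, der_mul d2 dr, der_mul dr dr]
  have f3 : der ζ x (fun p => GG th e p * conj (GG th e p) * hh p) p =
      der ζ x (fun p => aT th p * aT th p * aT th p * ell p) p := e1
  rw [f1, f2, hp.metric] at f3
  have k0 := key.self_of_nhdsWithin hq
  have w0 := hW.eq ζ x
  have hG := hp.GG_ne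
  have hGc : conj (GG th e p) ≠ 0 := by
    rwa [Ne, map_eq_zero]
  have hh0 := hp.hne
  rw [map_mul, map_inv₀]
  have hne : GG th e p * conj (GG th e p) * hh p ≠ 0 := mul_ne_zero (mul_ne_zero hG hGc) hh0
  refine mul_left_cancel₀ hne ?_
  have g1 : GG th e p * (GG th e p)⁻¹ = 1 := mul_inv_cancel₀ hG
  have g2 : conj (GG th e p) * (conj (GG th e p))⁻¹ = 1 := mul_inv_cancel₀ hGc
  generalize (GG th e p)⁻¹ = y1 at *
  generalize (conj (GG th e p))⁻¹ = y2 at *
  generalize conj (der ζ x (GG th e) p) = y3 at *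
  generalize der ζ x (GG th e) p = y4 at *
  generalize conj (GG th e p) = y5 at *
  generalize GG th e p = y6 at *
  generalize conj (o p (tv p ζ x)) = y7 at *
  generalize o p (tv p ζ x) = y8 at *
  generalize der ζ x W p = y9 at *
  generalize der ζ x (aT th) p = y10 at *
  generalize der ζ x ell p = y11 at *
  generalize aT th p = y12 at *
  generalize ell p = y13 at *
  generalize hh p = y14 at *
  linear_combination f3 + (-y12 * y12) * w0 + (y5 * y14 * y4) * g1 + (y6 * y14 * y3) * g2 -
    2 * y9 * k0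

/-- The closed form. -/
noncomputable def KK (th e o : Form1) (RR W : ℂ × ℂ → ℂ) : Form1 := fun p =>
  (o p + (Complex.I * RR p) • th p) +
    ((GG th e p)⁻¹ • fderiv ℝ (GG th e) p + -fderiv ℝ W p)

theorem KK_apply (W : ℂ × ℂ → ℂ) (v : ℂ × ℂ) : KK th e o RR W p v =
    o p v + Complex.I * RR p * th p v + ((GG th e p)⁻¹ * fderiv ℝ (GG th e) p v -
      fderiv ℝ W p v) := by
  unfold KK
  simp [sub_eq_add_neg]

theorem good_of_LPE {W : ℂ × ℂ → ℂ} (hW : LW th W p) (hq : p ∈ S)
    (h : ∀ᶠ p' in 𝓝[S] p, LPE th e o hh RR AA p') : Good W (KK th e o RR W) p := by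
  have hp : LPE th e o hh RR AA p := h.self_of_nhdsWithin hq
  have so : DifferentiableAt ℝ o p := hp.so.differentiableAt (by simp)
  have sth : DifferentiableAt ℝ th p := hp.sth.differentiableAt (by simp)
  have sR : DifferentiableAt ℝ RR p := hp.sRR.differentiableAt (by simp)
  have sIR : DifferentiableAt ℝ (fun y => Complex.I * RR y) p := sR.const_mul _
  have sRth : DifferentiableAt ℝ (fun y => (Complex.I * RR y) • th y) p := sIR.smul sth
  have sG := hp.smooth_GG
  have sdG : DifferentiableAt ℝ (fun y => fderiv ℝ (GG th e) y) p :=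
    (sG.fderiv_right (m := 1) one_add_one_le).differentiableAt (by simp)
  have sGi : DifferentiableAt ℝ (fun y => (GG th e y)⁻¹ • fderiv ℝ (GG th e) y) p :=
    ((sG.differentiableAt (by simp)).inv hp.GG_ne).smul sdG
  have sdW : DifferentiableAt ℝ (fun y => -fderiv ℝ W y) p :=
    ((hW.smooth.fderiv_right (m := 1) one_add_one_le).differentiableAt (by simp)).neg
  have hclosed : ∀ ζ x ζ' x', extD (KK th e o RR W) p (tv p ζ x) (tv p ζ' x') = 0 := by
    intro ζ x ζ' x'
    have e1 : extD (KK th e o RR W) p (tv p ζ x) (tv p ζ' x') =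
        (extD o p (tv p ζ x) (tv p ζ' x') +
          extD (fun y => (Complex.I * RR y) • th y) p (tv p ζ x) (tv p ζ' x')) +
        (extD (fun y => (GG th e y)⁻¹ • fderiv ℝ (GG th e) y) p (tv p ζ x) (tv p ζ' x') +
          extD (fun y => -fderiv ℝ W y) p (tv p ζ x) (tv p ζ' x')) := by
      have s1 : DifferentiableAt ℝ (fun y => o y + (Complex.I * RR y) • th y) p := so.add sRth
      have s2 : DifferentiableAt ℝ
        (fun y => (GG th e y)⁻¹ • fderiv ℝ (GG th e) y + -fderiv ℝ W y) p := sGi.add sdW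
      unfold KK
      rw [extD_add s1 s2, extD_add so sRth, extD_add sGi sdW]
    rw [e1, extD_log sG hp.GG_ne, extD_neg, extD_fderiv hW.smooth, extD_mul sIR sth]
    have e2 := hp.pe ζ x ζ' x'
    rw [extD_mul sR sth] at e2
    have e3 : ∀ v, fderiv ℝ (fun y => Complex.I * RR y) p v = Complex.I * fderiv ℝ RR p v := by
      intro v
      rw [fderiv_const_mul sR]
      simp
    rw [e3, e3]
    linear_combination (-Complex.I) * e2 + extD o p (tv p ζ x) (tv p ζ' x') * Complex.I_sq
  have hreal : ∀ {ζ : ℂ} {x : ℝ}, Complex.normSq ζ + x ^ 2 = 1 →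
      conj (KK th e o RR W p (tv p ζ x)) = -KK th e o RR W p (tv p ζ x) := by
    intro ζ x hu
    have e1 := real_part hW hq h hu
    rw [KK_apply]
    unfold der at e1
    have e2 := hW.real ζ x
    unfold der at e2
    rw [map_add, map_add, map_sub, e2, map_mul (starRingEnd ℂ) (Complex.I * RR p), map_mul
      (starRingEnd ℂ) Complex.I, hp.real, hp.rreal, Complex.conj_I]
    linear_combination e1
  have hT : aT (KK th e o RR W) p = aT o p + Complex.I * RR p * aT th p +
      ((GG th e p)⁻¹ * DT (GG th e) p - DT W p) := KK_apply W _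
  have hB : aB (KK th e o RR W) p = aB o p + Complex.I * RR p * aB th p +
      ((GG th e p)⁻¹ * DB (GG th e) p - DB W p) := by
    unfold aB DB der
    rw [KK_apply, KK_apply]
    ring
  have hzb : aB (KK th e o RR W) p - Complex.I * conj p.2 * aT (KK th e o RR W) p = mm W p := by
    have e1 := GG_eq hq h
    have e2 : (GG th e p)⁻¹ * GG th e p = 1 := inv_mul_cancel₀ hp.GG_ne
    rw [hT, hB, hp.thB, mm]
    linear_combination (GG th e p)⁻¹ * e1 +
      (conj p.2 - (aB o p - Complex.I * conj p.2 * aT o p)) * e2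
  refine ⟨(so.add sRth).add (sGi.add sdW), ?_, ?_, ?_, hzb, ?_⟩
  · rw [dTB, hclosed, hclosed]
    ring
  · rw [dTL, hclosed, hclosed]
    ring
  · rw [dLB, hclosed]
    ring
  · rw [mc, ← hzb, map_sub, map_mul, map_mul, conj_aB, Complex.conj_I, Complex.conj_conj,
      hreal (by simp), hreal (by simp)]
    have e1 : conj (aT (KK th e o RR W) p) = -aT (KK th e o RR W) p := hreal (by simp)
    rw [e1, aL]
    ring

end

end Pool.Agent.helper65.CR
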