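import Mathlib

/-!
# Three-dimensional CR submanifolds of `ℂ^N` and pseudo-Einstein contact forms

All forms on a submanifold `M` are represented by forms of the ambient space which are smooth near
`M`; only their restriction to the tangent spaces of `M` is used.
-/

open Filter Topology Set Metric
open scoped ContDiff ComplexConjugate

namespace Pool.Agent.helper65.CR

section Defs

variable {E : Type} [NormedAddCommGroup E] [NormedSpace ℂ E]

/-- `v` is tangent to `M` at `x`: it is the velocity of a curve in `M` through `x`. -/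
def IsTangent (M : Set E) (x v : E) : Prop :=
  ∃ γ : ℝ → E, γ 0 = x ∧ HasDerivAt γ v 0 ∧ ∀ᶠ t in 𝓝 0, γ t ∈ M

/-- `v` lies in `H_x = T_x M ∩ i T_x M`, the real part of `T^{1,0} ⊕ T^{0,1}`. -/
def IsHolTangent (M : Set E) (x v : E) : Prop :=
  IsTangent M x v ∧ IsTangent M x (Complex.I • v)

/-- `M` is a closed (compact, connected) three-dimensional submanifold of `E` which is a CR
submanifold of hypersurface type, i.e. all spaces `H_x` are complex lines. -/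
structure IsClosedCR3 (M : Set E) : Prop where
  compact : IsCompact M
  connected : IsConnected M
  chart : ∀ x ∈ M, ∃ (U : Set E) (V : Set (Fin 3 → ℝ)) (φ : (Fin 3 → ℝ) → E) (ψ : E → Fin 3 → ℝ),
    IsOpen U ∧ x ∈ U ∧ IsOpen V ∧ ContDiffOn ℝ ∞ φ V ∧ ContDiffOn ℝ ∞ ψ U ∧
    φ '' V = M ∩ U ∧ ∀ y ∈ V, ψ (φ y) = y
  cr : ∀ x ∈ M, ∃ v, v ≠ 0 ∧ ∀ w, IsHolTangent M x w ↔ ∃ c : ℂ, w = c • v

/-- The exterior derivative of a one-form: `dα(v, w) = D_v (α(w)) - D_w (α(v))`. -/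
noncomputable def extD {F : Type} [NormedAddCommGroup F] [NormedSpace ℝ F] (α : E → E →L[ℝ] F)
    (x v w : E) : F :=
  fderiv ℝ α x v w - fderiv ℝ α x w v

/-- The wedge product `α ∧ β`. -/
def wedge (α β : E → ℂ) (v w : E) : ℂ := α v * β w - α w * β v

/-- `θ` is a contact form of the CR manifold `M`: `H_x` is the kernel of `θ` on `T_x M`. -/
structure IsContactForm (M : Set E) (θ : E → E →L[ℝ] ℝ) : Prop where
  smooth : ∀ x ∈ M, ContDiffAt ℝ ∞ θ x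
  ker : ∀ x ∈ M, ∀ v, IsTangent M x v → (θ x v = 0 ↔ IsHolTangent M x v)

/-- On `M ∩ U`, `θ₁` is an admissible coframe of the pseudohermitian manifold `(M, θ)`, of type
`(1, 0)`, with `dθ = i h θ₁ ∧ θ̄₁`, and `om` is the Tanaka-Webster connection form: the form with
`dθ₁ = θ₁ ∧ om + A θ ∧ θ̄₁` and `dh = h (om + conj om)`. -/
structure IsWebster (M U : Set E) (θ : E → E →L[ℝ] ℝ) (θ₁ om : E → E →L[ℝ] ℂ) (h : E → ℝ)
    (A : E → ℂ) : Prop where
  isOpen : IsOpen U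
  smooth_coframe : ContDiffOn ℝ ∞ θ₁ U
  smooth_connection : ContDiffOn ℝ ∞ om U
  smooth_levi : ContDiffOn ℝ ∞ h U
  smooth_torsion : ContDiffOn ℝ ∞ A U
  type : ∀ x ∈ M ∩ U, ∀ v, IsHolTangent M x v → θ₁ x (Complex.I • v) = Complex.I * θ₁ x v
  ne_zero : ∀ x ∈ M ∩ U, ∀ v, IsHolTangent M x v → v ≠ 0 → θ₁ x v ≠ 0
  levi_ne : ∀ x ∈ M ∩ U, h x ≠ 0
  levi : ∀ x ∈ M ∩ U, ∀ v w, IsTangent M x v → IsTangent M x w →
    ((extD θ x v w : ℝ) : ℂ) = Complex.I * h x * wedge (θ₁ x) (fun u => conj (θ₁ x u)) v w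
  torsion : ∀ x ∈ M ∩ U, ∀ v w, IsTangent M x v → IsTangent M x w →
    extD θ₁ x v w = wedge (θ₁ x) (om x) v w +
      A x * wedge (fun u => (θ x u : ℂ)) (fun u => conj (θ₁ x u)) v w
  metric : ∀ x ∈ M ∩ U, ∀ v, IsTangent M x v →
    ((fderiv ℝ h x v : ℝ) : ℂ) = h x * (om x v + conj (om x v))

/-- `R` is the scalar curvature on `M ∩ U`: `d om = R h θ₁ ∧ θ̄₁` modulo `θ`. -/
def IsScalarCurvature (M U : Set E) (θ₁ om : E → E →L[ℝ] ℂ) (h R : E → ℝ) : Prop :=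
  ∀ x ∈ M ∩ U, ∀ v w, IsHolTangent M x v → IsHolTangent M x w →
    extD om x v w = R x * h x * wedge (θ₁ x) (fun u => conj (θ₁ x u)) v w

/-- The Lee form `-(1/3) (i d om - d(R θ))` for `n = 1`. -/
noncomputable def leeForm (θ : E → E →L[ℝ] ℝ) (om : E → E →L[ℝ] ℂ) (R : E → ℝ) (x v w : E) : ℂ :=
  -(1 / 3) * (Complex.I * extD om x v w - ((extD (fun y => R y • θ y) x v w : ℝ) : ℂ))

/-- `θ` is pseudo-Einstein: its Lee form vanishes on `M`. -/
def IsPseudoEinstein (M : Set E) (θ : E → E →L[ℝ] ℝ) : Prop :=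
  ∀ x ∈ M, ∃ (U : Set E) (θ₁ om : E → E →L[ℝ] ℂ) (h : E → ℝ) (A : E → ℂ) (R : E → ℝ),
    x ∈ U ∧ IsWebster M U θ θ₁ om h A ∧ ContDiffOn ℝ ∞ R U ∧ IsScalarCurvature M U θ₁ om h R ∧
    ∀ y ∈ M ∩ U, ∀ v w, IsTangent M y v → IsTangent M y w → leeForm θ om R y v w = 0

/-- `M` is (orientable and) strictly pseudoconvex. -/
def StrictlyPseudoconvex (M : Set E) : Prop :=
  ∃ θ : E → E →L[ℝ] ℝ, IsContactForm M θ ∧
    ∀ x ∈ M, ∀ v, IsHolTangent M x v → v ≠ 0 → 0 < extD θ x v (Complex.I • v)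

/-- `c₁(T^{1,0}) = 0` in `H²(M; ℝ)`: for a contact form the closed form `i d om`, which represents
`2π c₁(T^{1,0})`, is `dσ` for a global one-form `σ`. -/
def ChernClassZero (M : Set E) : Prop :=
  ∃ θ : E → E →L[ℝ] ℝ, IsContactForm M θ ∧ ∃ σ : E → E →L[ℝ] ℝ, (∀ x ∈ M, ContDiffAt ℝ ∞ σ x) ∧
    ∀ x ∈ M, ∃ (U : Set E) (θ₁ om : E → E →L[ℝ] ℂ) (h : E → ℝ) (A : E → ℂ),
      x ∈ U ∧ IsWebster M U θ θ₁ om h A ∧
      ∀ y ∈ M ∩ U, ∀ v w, IsTangent M y v → IsTangent M y w →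
        Complex.I * extD om y v w = ((extD σ y v w : ℝ) : ℂ)

end Defs

end Pool.Agent.helper65.CR
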