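import Pool.Agent.helper65.CR.NonPE

/-!
# Extension of invariant forms from the sphere to a neighbourhood of `M`
-/

open Filter Topology Set Metric
open scoped ContDiff ComplexConjugate Manifold

namespace Pool.Agent.helper65.CR

/-- A local section of `Φ`, with its derivative. -/
structure LSec (U : Set (Fin 4 → ℂ)) (Q : (Fin 4 → ℂ) → ℂ × ℂ) : Prop where
  isOpen : IsOpen U
  smooth : ContDiffOn ℝ ∞ Q U
  maps : ∀ x ∈ M ∩ U, Q x ∈ S ∧ Φ (Q x) = x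
  deriv : ∀ x ∈ M ∩ U, ∀ (ζ : ℂ) (r : ℝ),
    fderiv ℝ Q x (dΦ (Q x) (tv (Q x) ζ r)) = tv (Q x) ζ r

/-- The facts about local sections which are used. -/
structure SecFacts : Prop where
  sec : ∀ q ∈ S, ∃ U Q, Φ q ∈ U ∧ LSec U Q
  fib : ∀ q ∈ S, ∀ q' ∈ S, Φ q = Φ q' → ∃ w : ℂ, w ^ 3 = 1 ∧ q' = (w * q.1, w * q.2)

/-- Multiplication by `w`. -/
def mulw (w : ℂ) (q : ℂ × ℂ) : ℂ × ℂ := (w * q.1, w * q.2)

theorem conj_mul_of_cube {w : ℂ} (hw : w ^ 3 = 1) : w * conj w = 1 := by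
  have h1 : ‖w‖ = 1 := by
    have h2 : ‖w‖ ^ 3 = 1 := by rw [← norm_pow, hw, norm_one]
    exact (pow_eq_one_iff_of_nonneg (norm_nonneg w) (by norm_num)).1 h2
  rw [Complex.mul_conj, Complex.normSq_eq_norm_sq, h1]
  simp

theorem conj_of_cube {w : ℂ} (hw : w ^ 3 = 1) : conj w = w ^ 2 := by
  have h1 := conj_mul_of_cube hw
  linear_combination w ^ 2 * h1 - conj w * hw

theorem dΦ_mulw {w : ℂ} (hw : w ^ 3 = 1) (q v : ℂ × ℂ) :
    dΦ (mulw w q) (mulw w v) = dΦ q v := by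
  have hc := conj_of_cube hw
  obtain ⟨a, b⟩ := q
  obtain ⟨x, y⟩ := v
  funext i
  fin_cases i <;> simp only [dΦ, mulw, map_mul, hc] <;> simp <;> grind

theorem tv_mulw {w : ℂ} (hw : w ^ 3 = 1) (q : ℂ × ℂ) (ζ : ℂ) (r : ℝ) :
    tv (mulw w q) ζ r = mulw w (tv q (w * ζ) r) := by
  have hc := conj_of_cube hw
  refine Prod.ext ?_ ?_
  · simp only [tv, mulw, map_mul, hc]
    ring
  · simp only [tv, mulw, map_mul, hc]
    ring

theorem mulw_mem {w : ℂ} (hw : w ^ 3 = 1) {q : ℂ × ℂ} (hq : q ∈ S) : mulw w q ∈ S := by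
  have hc := conj_mul_of_cube hw
  rw [mem_S] at hq ⊢
  simp only [mulw, map_mul]
  linear_combination hq + (q.1 * conj q.1 + q.2 * conj q.2) * hc

theorem isCompact_M : IsCompact M := isCompact_S.image contDiff_Φ.continuous

variable {G : Type} [NormedAddCommGroup G] [NormedSpace ℝ G]

/-- The extension lemma. -/
theorem exists_extension (SF : SecFacts) {α : ℂ × ℂ → (ℂ × ℂ) →L[ℝ] G} (hα : ContDiff ℝ ∞ α)
    (hinv : ∀ q ∈ S, ∀ w : ℂ, w ^ 3 = 1 → ∀ v, α (mulw w q) (mulw w v) = α q v) :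
    ∃ β : (Fin 4 → ℂ) → (Fin 4 → ℂ) →L[ℝ] G, ContDiff ℝ ∞ β ∧
      ∀ q ∈ S, ∀ (ζ : ℂ) (r : ℝ), β (Φ q) (dΦ q (tv q ζ r)) = α q (tv q ζ r) := by
  let t : (Fin 4 → ℂ) → Set ((Fin 4 → ℂ) →L[ℝ] G) := fun x =>
    {β | ∀ q ∈ S, Φ q = x → ∀ (ζ : ℂ) (r : ℝ), β (dΦ q (tv q ζ r)) = α q (tv q ζ r)}
  have ht : ∀ x, Convex ℝ (t x) := by
    intro x β hβ γ hγ a b _ _ hab q hq hx ζ r
    rw [add_apply, smul_apply, smul_apply, hβ q hq hx, hγ q hq hx, ← add_smul, hab, one_smul]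
  have hloc : ∀ x : Fin 4 → ℂ, ∃ U ∈ 𝓝 x, ∃ g : (Fin 4 → ℂ) → ((Fin 4 → ℂ) →L[ℝ] G),
      ContMDiffOn 𝓘(ℝ, Fin 4 → ℂ) 𝓘(ℝ, (Fin 4 → ℂ) →L[ℝ] G) ∞ g U ∧ ∀ y ∈ U, g y ∈ t y := by
    intro x
    by_cases hx : x ∈ M
    · obtain ⟨q, hq, rfl⟩ := hx
      obtain ⟨U, Q, hqU, hs⟩ := SF.sec q hq
      refine ⟨U, hs.isOpen.mem_nhds hqU, fun y => (α (Q y)).comp (fderiv ℝ Q y), ?_, ?_⟩
      · rw [contMDiffOn_iff_contDiffOn]
        intro y hy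
        have h1 : ContDiffAt ℝ ∞ Q y := hs.smooth.contDiffAt (hs.isOpen.mem_nhds hy)
        have h2 : ContDiffAt ℝ ∞ (fun y => α (Q y)) y := hα.contDiffAt.comp y h1
        exact (h2.clm_comp (h1.fderiv_right (by simp))).contDiffWithinAt
      · intro y hy p hp hpy ζ r
        have hyM : y ∈ M ∩ U := ⟨⟨p, hp, hpy⟩, hy⟩
        obtain ⟨h1, h2⟩ := hs.maps y hyM
        obtain ⟨w, hw, hpw⟩ := SF.fib (Q y) h1 p hp (h2.trans hpy.symm)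
        have hpw' : p = mulw w (Q y) := hpw
        rw [hpw', tv_mulw hw, dΦ_mulw hw, hinv _ h1 w hw]
        simp only [ContinuousLinearMap.coe_comp, Function.comp_apply]
        rw [hs.deriv y hyM]
    · refine ⟨Mᶜ, isCompact_M.isClosed.isOpen_compl.mem_nhds hx, fun _ => 0, contMDiffOn_const, ?_⟩
      intro y hy q hq hqy
      exact absurd ⟨q, hq, hqy⟩ hy
  obtain ⟨g, hg⟩ := exists_contMDiffMap_forall_mem_convex_of_local 𝓘(ℝ, Fin 4 → ℂ) ht hloc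
  refine ⟨g, contMDiff_iff_contDiff.1 g.contMDiff, fun q hq ζ r => hg (Φ q) q hq rfl ζ r⟩

end Pool.Agent.helper65.CR
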