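import Pool.Agent.helper65.CR.Obst

/-!
# Closed one-forms in the frame `L, L̄, T`
-/

open Filter Topology Set Metric MeasureTheory
open scoped ContDiff ComplexConjugate

namespace Pool.Agent.helper65.CR

/-! ### Functions which agree on the sphere -/

theorem der_congr_S {f g : ℂ × ℂ → ℂ} {q : ℂ × ℂ} (hq : q ∈ S) (hf : DifferentiableAt ℝ f q)
    (hg : DifferentiableAt ℝ g q) (h : ∀ᶠ p in 𝓝[S] q, f p = g p) {ζ : ℂ} {x : ℝ}
    (hu : Complex.normSq ζ + x ^ 2 = 1) : der ζ x f q = der ζ x g q := by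
  have h0 := hasDerivAt_rot hu q 0
  rw [rot_zero] at h0
  have hcomp : ∀ {f : ℂ × ℂ → ℂ}, DifferentiableAt ℝ f q →
      HasDerivAt (fun s => f (rot ζ x s q)) (der ζ x f q) 0 := by
    intro f hf
    have h1 : HasFDerivAt f (fderiv ℝ f q) (rot ζ x 0 q) := by
      rw [rot_zero]
      exact hf.hasFDerivAt
    exact h1.comp_hasDerivAt (0 : ℝ) h0
  have h3 : Tendsto (fun s : ℝ => rot ζ x s q) (𝓝 0) (𝓝[S] q) := by
    refine tendsto_nhdsWithin_iff.2 ⟨?_, Eventually.of_forall fun s => rot_mem hu s hq⟩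
    have := (hasDerivAt_rot hu q 0).continuousAt.tendsto
    rwa [rot_zero] at this
  have h4 : (fun s => f (rot ζ x s q)) =ᶠ[𝓝 0] fun s => g (rot ζ x s q) := h3.eventually h
  exact (hcomp hf).unique ((hcomp hg).congr_of_eventuallyEq h4)

theorem DL_congr {f g : ℂ × ℂ → ℂ} {q : ℂ × ℂ} (hq : q ∈ S) (hf : DifferentiableAt ℝ f q)
    (hg : DifferentiableAt ℝ g q) (h : ∀ᶠ p in 𝓝[S] q, f p = g p) : DL f q = DL g q := by
  unfold DL
  rw [der_congr_S hq hf hg h (by simp), der_congr_S hq hf hg h (by simp)]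

theorem DB_congr {f g : ℂ × ℂ → ℂ} {q : ℂ × ℂ} (hq : q ∈ S) (hf : DifferentiableAt ℝ f q)
    (hg : DifferentiableAt ℝ g q) (h : ∀ᶠ p in 𝓝[S] q, f p = g p) : DB f q = DB g q := by
  unfold DB
  rw [der_congr_S hq hf hg h (by simp), der_congr_S hq hf hg h (by simp)]

theorem DT_congr {f g : ℂ × ℂ → ℂ} {q : ℂ × ℂ} (hq : q ∈ S) (hf : DifferentiableAt ℝ f q)
    (hg : DifferentiableAt ℝ g q) (h : ∀ᶠ p in 𝓝[S] q, f p = g p) : DT f q = DT g q := by
  unfold DT
  exact der_congr_S hq hf hg h (by simp)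

/-! ### Components of one-forms -/

section Forms

/-- A one-form on `ℂ²`. -/
abbrev Form1 : Type := ℂ × ℂ → (ℂ × ℂ) →L[ℝ] ℂ

/-- The component along `T`. -/
noncomputable def aT (α : Form1) (q : ℂ × ℂ) : ℂ := α q (tv q 0 1)

/-- The component along `L`. -/
noncomputable def aL (α : Form1) (q : ℂ × ℂ) : ℂ :=
  (1 / 2) * (α q (tv q 1 0) - Complex.I * α q (tv q Complex.I 0))

/-- The component along `L̄`. -/
noncomputable def aB (α : Form1) (q : ℂ × ℂ) : ℂ :=
  (1 / 2) * (α q (tv q 1 0) + Complex.I * α q (tv q Complex.I 0))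

/-- The components of the exterior derivative. -/
noncomputable def dTB (α : Form1) (q : ℂ × ℂ) : ℂ :=
  (1 / 2) * (extD α q (tv q 0 1) (tv q 1 0) + Complex.I * extD α q (tv q 0 1) (tv q Complex.I 0))

noncomputable def dTL (α : Form1) (q : ℂ × ℂ) : ℂ :=
  (1 / 2) * (extD α q (tv q 0 1) (tv q 1 0) - Complex.I * extD α q (tv q 0 1) (tv q Complex.I 0))

noncomputable def dLB (α : Form1) (q : ℂ × ℂ) : ℂ :=
  (Complex.I / 2) * extD α q (tv q 1 0) (tv q Complex.I 0)

variable {α : Form1} {q : ℂ × ℂ}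

theorem diff_ev (h : DifferentiableAt ℝ α q) (ζ : ℂ) (x : ℝ) :
    DifferentiableAt ℝ (fun p => α p (tv p ζ x)) q :=
  h.clm_apply (((contDiff_tv ζ x).differentiable (by simp)) q)

theorem der_ev (h : DifferentiableAt ℝ α q) (ζ ζ' : ℂ) (x x' : ℝ) :
    der ζ x (fun p => α p (tv p ζ' x')) q =
      fderiv ℝ α q (tv q ζ x) (tv q ζ' x') + α q (tv (tv q ζ x) ζ' x') := by
  unfold der
  have h1 : HasFDerivAt (fun p : ℂ × ℂ => tv p ζ' x')
      (LinearMap.toContinuousLinearMap (fld ζ' x')) q :=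
    (LinearMap.toContinuousLinearMap (fld ζ' x')).hasFDerivAt
  have h2 := h.hasFDerivAt.clm_apply h1
  rw [h2.fderiv]
  simp [fld_apply, add_comm]

theorem diff_aT (h : DifferentiableAt ℝ α q) : DifferentiableAt ℝ (aT α) q := diff_ev h 0 1

theorem diff_aL (h : DifferentiableAt ℝ α q) : DifferentiableAt ℝ (aL α) q :=
  ((diff_ev h 1 0).sub ((diff_ev h Complex.I 0).const_mul _)).const_mul _

theorem diff_aB (h : DifferentiableAt ℝ α q) : DifferentiableAt ℝ (aB α) q :=
  ((diff_ev h 1 0).add ((diff_ev h Complex.I 0).const_mul _)).const_mul _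

theorem der_aL (h : DifferentiableAt ℝ α q) (ζ : ℂ) (x : ℝ) : der ζ x (aL α) q =
    (1 / 2) * (der ζ x (fun p => α p (tv p 1 0)) q -
      Complex.I * der ζ x (fun p => α p (tv p Complex.I 0)) q) := by
  have h1 := diff_ev h 1 0
  have h2 := diff_ev h Complex.I 0
  have h2' : DifferentiableAt ℝ (fun p => (-Complex.I) * α p (tv p Complex.I 0)) q := h2.const_mul _
  have h12 : DifferentiableAt ℝ
      (fun p => α p (tv p 1 0) + (-Complex.I) * α p (tv p Complex.I 0)) q := h1.add h2'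
  have h3 : aL α = fun p => (1 / 2) * (α p (tv p 1 0) + (-Complex.I) * α p (tv p Complex.I 0)) := by
    funext p
    unfold aL
    ring
  rw [h3, der_const_mul h12, der_add h1 h2', der_const_mul h2]
  ring

theorem der_aB (h : DifferentiableAt ℝ α q) (ζ : ℂ) (x : ℝ) : der ζ x (aB α) q =
    (1 / 2) * (der ζ x (fun p => α p (tv p 1 0)) q +
      Complex.I * der ζ x (fun p => α p (tv p Complex.I 0)) q) := by
  have h1 := diff_ev h 1 0
  have h2 := diff_ev h Complex.I 0
  have h2' : DifferentiableAt ℝ (fun p => Complex.I * α p (tv p Complex.I 0)) q := h2.const_mul _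
  have h12 : DifferentiableAt ℝ
      (fun p => α p (tv p 1 0) + Complex.I * α p (tv p Complex.I 0)) q := h1.add h2'
  have h3 : aB α = fun p => (1 / 2) * (α p (tv p 1 0) + Complex.I * α p (tv p Complex.I 0)) := rfl
  rw [h3, der_const_mul h12, der_add h1 h2', der_const_mul h2]

/-- Commutators. -/
theorem comm_TX : tv (tv q 0 1) 1 0 = tv (tv q 1 0) 0 1 - (2 : ℝ) • tv q Complex.I 0 := by
  refine Prod.ext ?_ ?_ <;> simp [tv] <;> ring

theorem comm_TY : tv (tv q 0 1) Complex.I 0 =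
    tv (tv q Complex.I 0) 0 1 + (2 : ℝ) • tv q 1 0 := by
  have hI := Complex.I_sq
  refine Prod.ext ?_ ?_
  · simp [tv]
    linear_combination (2 * conj q.2) * hI
  · simp [tv]
    linear_combination (-2 * conj q.1) * hI

theorem comm_XY : tv (tv q 1 0) Complex.I 0 =
    tv (tv q Complex.I 0) 1 0 - (2 : ℝ) • tv q 0 1 := by
  refine Prod.ext ?_ ?_ <;> simp [tv] <;> ring

theorem ext_TX (h : DifferentiableAt ℝ α q) :
    der 0 1 (fun p => α p (tv p 1 0)) q - der 1 0 (aT α) q + 2 * α q (tv q Complex.I 0) =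
      extD α q (tv q 0 1) (tv q 1 0) := by
  have e1 := der_ev h 0 1 1 0
  have e2 := der_ev h 1 0 0 1
  rw [comm_TX, map_sub, map_smul] at e1
  unfold aT extD
  rw [e1, e2, Complex.real_smul]
  push_cast
  ring

theorem ext_TY (h : DifferentiableAt ℝ α q) :
    der 0 1 (fun p => α p (tv p Complex.I 0)) q - der Complex.I 0 (aT α) q -
      2 * α q (tv q 1 0) = extD α q (tv q 0 1) (tv q Complex.I 0) := by
  have e1 := der_ev h 0 Complex.I 1 0
  have e2 := der_ev h Complex.I 0 0 1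
  rw [comm_TY, map_add, map_smul] at e1
  unfold aT extD
  rw [e1, e2, Complex.real_smul]
  push_cast
  ring

theorem ext_XY (h : DifferentiableAt ℝ α q) :
    der 1 0 (fun p => α p (tv p Complex.I 0)) q - der Complex.I 0 (fun p => α p (tv p 1 0)) q +
      2 * aT α q = extD α q (tv q 1 0) (tv q Complex.I 0) := by
  have e1 := der_ev h 1 Complex.I 0 0
  have e2 := der_ev h Complex.I 1 0 0
  rw [comm_XY, map_sub, map_smul] at e1
  unfold aT extD
  rw [e1, e2, Complex.real_smul]
  push_cast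
  ring

theorem ext_TB (h : DifferentiableAt ℝ α q) :
    DT (aB α) q - DB (aT α) q - 2 * Complex.I * aB α q = dTB α q := by
  have hI := Complex.I_sq
  unfold dTB DB DT
  rw [← ext_TX h, ← ext_TY h, der_aB h]
  unfold aB
  linear_combination (-α q (tv q Complex.I 0)) * hI

theorem ext_TL (h : DifferentiableAt ℝ α q) :
    DT (aL α) q - DL (aT α) q + 2 * Complex.I * aL α q = dTL α q := by
  have hI := Complex.I_sq
  unfold dTL DL DT
  rw [← ext_TX h, ← ext_TY h, der_aL h]
  unfold aL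
  linear_combination (-α q (tv q Complex.I 0)) * hI

theorem ext_LB (h : DifferentiableAt ℝ α q) :
    DL (aB α) q - DB (aL α) q + Complex.I * aT α q = dLB α q := by
  unfold dLB DL DB
  rw [← ext_XY h, der_aB h, der_aB h, der_aL h, der_aL h]
  ring

end Forms

/-! ### From local closed forms to a contradiction -/

/-- `κ(Z̄)`. -/
noncomputable def mm (W : ℂ × ℂ → ℂ) (q : ℂ × ℂ) : ℂ :=
  conj q.2 - (DB W q - Complex.I * conj q.2 * DT W q)

noncomputable def mc (W : ℂ × ℂ → ℂ) (q : ℂ × ℂ) : ℂ := conj (mm W q)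

noncomputable def ell (q : ℂ × ℂ) : ℂ := 1 + 6 * q.2 * conj q.2

noncomputable def K₀ (W : ℂ × ℂ → ℂ) (q : ℂ × ℂ) : ℂ :=
  Complex.I * (DL (mm W) q + Complex.I * q.2 * DT (mm W) q + (DB (mc W) q -
    Complex.I * conj q.2 * DT (mc W) q) + 2 * conj q.2 * mc W q + 2 * q.2 * mm W q) * (ell q)⁻¹

noncomputable def K₂ (W : ℂ × ℂ → ℂ) (q : ℂ × ℂ) : ℂ := mm W q + Complex.I * conj q.2 * K₀ W q

noncomputable def K₁ (W : ℂ × ℂ → ℂ) (q : ℂ × ℂ) : ℂ := -mc W q - Complex.I * q.2 * K₀ W q

/-- A local closed form with the right `Z̄`-component. -/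
structure Good (W : ℂ × ℂ → ℂ) (K : Form1) (p : ℂ × ℂ) : Prop where
  diff : DifferentiableAt ℝ K p
  tb : dTB K p = 0
  tl : dTL K p = 0
  lb : dLB K p = 0
  zb : aB K p - Complex.I * conj p.2 * aT K p = mm W p
  z : aL K p + Complex.I * p.2 * aT K p = -mc W p

theorem ell_ne (q : ℂ × ℂ) : ell q ≠ 0 := by
  unfold ell
  rw [mul_assoc, Complex.mul_conj]
  have h := Complex.normSq_nonneg q.2
  have : (1 + 6 * (Complex.normSq q.2 : ℂ)) = ((1 + 6 * Complex.normSq q.2 : ℝ) : ℂ) := by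
    push_cast
    rfl
  rw [this]
  exact_mod_cast (by positivity : (1 + 6 * Complex.normSq q.2 : ℝ) ≠ 0)

section Global

variable {W : ℂ × ℂ → ℂ} (hW : SmS W)

include hW in
theorem mm_smooth : SmS (mm W) :=
  SmS.snd.conj.sub (hW.DB.sub (((SmS.const _).mul SmS.snd.conj).mul hW.DT))

include hW in
theorem mc_smooth : SmS (mc W) := (mm_smooth hW).conj

theorem ell_smooth : SmS ell :=
  (SmS.const _).add (((SmS.const _).mul SmS.snd).mul SmS.snd.conj)

include hW in
theorem K₀_smooth : SmS (K₀ W) := by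
  have h1 := mm_smooth hW
  have h2 := mc_smooth hW
  have h3 : SmS fun q => (ell q)⁻¹ := fun q hq => (ell_smooth q hq).inv (ell_ne q)
  exact (((SmS.const _).mul (((((h1.DL).add (((SmS.const _).mul SmS.snd).mul h1.DT)).add
    (h2.DB.sub (((SmS.const _).mul SmS.snd.conj).mul h2.DT))).add
    (((SmS.const _).mul SmS.snd.conj).mul h2)).add (((SmS.const _).mul SmS.snd).mul h1))).mul h3)

include hW in
theorem K₂_smooth : SmS (K₂ W) :=
  (mm_smooth hW).add (((SmS.const _).mul SmS.snd.conj).mul (K₀_smooth hW))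

include hW in
theorem K₁_smooth : SmS (K₁ W) :=
  (mc_smooth hW).neg.sub (((SmS.const _).mul SmS.snd).mul (K₀_smooth hW))

include hW in
/-- The `T`-component of a good form. -/
theorem Good.aT_eq {K : Form1} {q : ℂ × ℂ} (hq : q ∈ S) (h : ∀ᶠ p in 𝓝[S] q, Good W K p) :
    aT K q = K₀ W q := by
  have hg : Good W K q := h.self_of_nhdsWithin hq
  have hd := hg.diff
  have dT := diff_aT hd
  have dm := (mm_smooth hW).differentiableAt hq
  have dc := (mc_smooth hW).differentiableAt hq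
  have db := diff_snd q
  have dcb := diff_csnd q
  -- the functions `aB K` and `aL K` on the sphere
  have eB : ∀ᶠ p in 𝓝[S] q, aB K p = mm W p + Complex.I * (conj p.2 * aT K p) :=
    h.mono fun p hp => by linear_combination hp.zb
  have eL : ∀ᶠ p in 𝓝[S] q, aL K p = -1 * mc W p + (-Complex.I) * (p.2 * aT K p) :=
    h.mono fun p hp => by linear_combination hp.z
  have d1 : DifferentiableAt ℝ (fun p => conj p.2 * aT K p) q := dcb.mul dT
  have d1' : DifferentiableAt ℝ (fun p => Complex.I * (conj p.2 * aT K p)) q := d1.const_mul _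
  have d2 : DifferentiableAt ℝ (fun p => p.2 * aT K p) q := db.mul dT
  have d2' : DifferentiableAt ℝ (fun p => (-Complex.I) * (p.2 * aT K p)) q := d2.const_mul _
  have d3 : DifferentiableAt ℝ (fun p => -1 * mc W p) q := dc.const_mul _
  have dB' : DifferentiableAt ℝ (fun p => mm W p + Complex.I * (conj p.2 * aT K p)) q :=
    dm.add d1'
  have dL' : DifferentiableAt ℝ (fun p => -1 * mc W p + (-Complex.I) * (p.2 * aT K p)) q :=
    d3.add d2'
  have b1 : DT (aB K) q = DT (mm W) q + Complex.I * (conj q.2 * DT (aT K) q +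
      aT K q * (-Complex.I * conj q.2)) := by
    rw [DT_congr hq (diff_aB hd) dB' eB, DT_add dm d1',
      DT_const_mul d1, DT_mul dcb dT, DT_csnd]
  have b2 : DL (aB K) q = DL (mm W) q + Complex.I * (conj q.2 * DL (aT K) q) := by
    rw [DL_congr hq (diff_aB hd) dB' eB, DL_add dm d1',
      DL_const_mul d1, DL_mul dcb dT, DL_csnd]
    ring
  have l1 : DT (aL K) q = -1 * DT (mc W) q + (-Complex.I) * (q.2 * DT (aT K) q +
      aT K q * (Complex.I * q.2)) := by
    rw [DT_congr hq (diff_aL hd) dL' eL, DT_add d3 d2',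
      DT_const_mul dc, DT_const_mul d2, DT_mul db dT, DT_snd]
  have l2 : DB (aL K) q = -1 * DB (mc W) q + (-Complex.I) * (q.2 * DB (aT K) q) := by
    rw [DB_congr hq (diff_aL hd) dL' eL, DB_add d3 d2',
      DB_const_mul dc, DB_const_mul d2, DB_mul db dT, DB_snd]
    ring
  have vB : aB K q = mm W q + Complex.I * (conj q.2 * aT K q) := eB.self_of_nhdsWithin hq
  have vL : aL K q = -1 * mc W q + (-Complex.I) * (q.2 * aT K q) := eL.self_of_nhdsWithin hq
  have c1 := ext_TB hd
  have c2 := ext_TL hd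
  have c3 := ext_LB hd
  rw [hg.tb, b1, vB] at c1
  rw [hg.tl, l1, vL] at c2
  rw [hg.lb, b2, l2] at c3
  have hI := Complex.I_sq
  have key : ell q * aT K q = Complex.I * (DL (mm W) q + Complex.I * q.2 * DT (mm W) q +
      (DB (mc W) q - Complex.I * conj q.2 * DT (mc W) q) + 2 * conj q.2 * mc W q +
      2 * q.2 * mm W q) := by
    unfold ell
    linear_combination (-Complex.I) * c3 + conj q.2 * c2 + q.2 * c1 +
      (aT K q + 6 * q.2 * conj q.2 * aT K q - q.2 * DT (mm W) q + conj q.2 * DT (mc W) q +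
        conj q.2 * DL (aT K) q + q.2 * DB (aT K) q) * hI
  rw [K₀, ← key, mul_comm (ell q), mul_assoc, mul_inv_cancel₀ (ell_ne q), mul_one]

include hW in
theorem false_of_good (h : ∀ q ∈ S, ∃ K : Form1, ∀ᶠ p in 𝓝[S] q, Good W K p) : False := by
  have h0 := K₀_smooth hW
  have h1 := K₁_smooth hW
  have h2 := K₂_smooth hW
  have hloc : ∀ q ∈ S, DT (K₂ W) q - DB (K₀ W) q - 2 * Complex.I * K₂ W q = 0 ∧
      DL (K₂ W) q - DB (K₁ W) q + Complex.I * K₀ W q = 0 := by
    intro q hq
    obtain ⟨K, hK⟩ := h q hq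
    have hg : Good W K q := hK.self_of_nhdsWithin hq
    have hd := hg.diff
    have e0 : ∀ᶠ p in 𝓝[S] q, aT K p = K₀ W p := by
      have h3 := eventually_eventually_nhdsWithin.2 hK
      filter_upwards [h3, self_mem_nhdsWithin] with p hp hpS
      exact Good.aT_eq hW hpS hp
    have e2 : ∀ᶠ p in 𝓝[S] q, aB K p = K₂ W p := by
      filter_upwards [hK, e0] with p hp h0p
      rw [K₂, ← h0p]
      linear_combination hp.zb
    have e1 : ∀ᶠ p in 𝓝[S] q, aL K p = K₁ W p := by
      filter_upwards [hK, e0] with p hp h0p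
      rw [K₁, ← h0p]
      linear_combination hp.z
    have v0 := e0.self_of_nhdsWithin hq
    have v2 := e2.self_of_nhdsWithin hq
    have c1 := ext_TB hd
    have c3 := ext_LB hd
    rw [hg.tb, DT_congr hq (diff_aB hd) (h2.differentiableAt hq) e2,
      DB_congr hq (diff_aT hd) (h0.differentiableAt hq) e0, v2] at c1
    rw [hg.lb, DL_congr hq (diff_aB hd) (h2.differentiableAt hq) e2,
      DB_congr hq (diff_aL hd) (h1.differentiableAt hq) e1, v0] at c3
    exact ⟨c1, c3⟩
  refine obstruction h0 h1 h2 hW (fun q hq => (hloc q hq).1) (fun q hq => (hloc q hq).2)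
    fun q _ => ?_
  rw [K₂, mm]
  ring

end Global

end Pool.Agent.helper65.CR
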