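import Pool.Agent.helper65.CR.Defs

/-!
# The model: the sphere `S ⊆ ℂ²` and the map `Φ : ℂ² → ℂ⁴`
-/

open Filter Topology Set Metric
open scoped ContDiff ComplexConjugate

namespace Pool.Agent.helper65.CR

/-- The sphere in `ℂ²`. -/
def S : Set (ℂ × ℂ) := {q | q.1 * conj q.1 + q.2 * conj q.2 = 1}

theorem mem_S {q : ℂ × ℂ} : q ∈ S ↔ q.1 * conj q.1 + q.2 * conj q.2 = 1 := Iff.rfl

/-- The map onto the CR manifold. -/
noncomputable def Φ (q : ℂ × ℂ) : Fin 4 → ℂ :=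
  ![2 * q.1 ^ 3 - 3 * q.1 ^ 2 * conj q.2 ^ 2,
    2 * q.1 ^ 2 * q.2 - 3 * q.1 * q.2 * conj q.2 ^ 2,
    2 * q.1 * q.2 ^ 2 - 3 * q.2 ^ 2 * conj q.2 ^ 2,
    2 * q.2 ^ 3 + 3 * conj q.1 * q.2 * (1 + q.2 * conj q.2)]

/-- The CR manifold. -/
def M : Set (Fin 4 → ℂ) := Φ '' S

/-- The tangent vector of `S` at `q` with coordinates `ζ, x`. -/
noncomputable def tv (q : ℂ × ℂ) (ζ : ℂ) (x : ℝ) : ℂ × ℂ :=
  (-ζ * conj q.2 + Complex.I * x * q.1, ζ * conj q.1 + Complex.I * x * q.2)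

/-- The derivative of `Φ` at `q` in the direction `v`, explicitly. -/
noncomputable def dΦ (q v : ℂ × ℂ) : Fin 4 → ℂ :=
  ![(6 * q.1 ^ 2 - 6 * q.1 * conj q.2 ^ 2) * v.1 - 6 * q.1 ^ 2 * conj q.2 * conj v.2,
    (4 * q.1 * q.2 - 3 * q.2 * conj q.2 ^ 2) * v.1 +
      (2 * q.1 ^ 2 - 3 * q.1 * conj q.2 ^ 2) * v.2 - 6 * q.1 * q.2 * conj q.2 * conj v.2,
    2 * q.2 ^ 2 * v.1 + (4 * q.1 * q.2 - 6 * q.2 * conj q.2 ^ 2) * v.2 -
      6 * q.2 ^ 2 * conj q.2 * conj v.2,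
    (6 * q.2 ^ 2 + 3 * conj q.1 * (1 + 2 * q.2 * conj q.2)) * v.2 +
      3 * q.2 * (1 + q.2 * conj q.2) * conj v.1 + 3 * conj q.1 * q.2 ^ 2 * conj v.2]

/-- The image of the `(1, 0)` vector field `Z`. -/
noncomputable def P (q : ℂ × ℂ) : Fin 4 → ℂ :=
  ![-6 * q.1 ^ 2 * conj q.2 - 6 * q.1 ^ 3 * q.2 + 6 * q.1 * conj q.2 ^ 3,
    -4 * q.1 * q.2 * conj q.2 + 3 * q.2 * conj q.2 ^ 3 + 2 * q.1 ^ 2 * conj q.1 -
      3 * q.1 * conj q.1 * conj q.2 ^ 2 - 6 * q.1 ^ 2 * q.2 ^ 2,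
    -2 * q.2 ^ 2 * conj q.2 + 4 * q.1 * conj q.1 * q.2 - 6 * conj q.1 * q.2 * conj q.2 ^ 2 -
      6 * q.1 * q.2 ^ 3,
    6 * conj q.1 * q.2 ^ 2 + 3 * conj q.1 ^ 2 * (1 + 2 * q.2 * conj q.2) - 6 * q.2 ^ 4]

/-- The image of the vector field `T`. -/
noncomputable def PT (q : ℂ × ℂ) : Fin 4 → ℂ :=
  ![6 * Complex.I * q.1 ^ 3, 6 * Complex.I * q.1 ^ 2 * q.2, 6 * Complex.I * q.1 * q.2 ^ 2,
    6 * Complex.I * q.2 ^ 3]

theorem contDiff_conj {n : WithTop ℕ∞} : ContDiff ℝ n (fun z : ℂ => conj z) :=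
  Complex.conjCLE.contDiff

theorem contDiff_Φ : ContDiff ℝ ∞ Φ := by
  have h1 : ContDiff ℝ ∞ (fun q : ℂ × ℂ => conj q.1) := contDiff_conj.comp contDiff_fst
  have h2 : ContDiff ℝ ∞ (fun q : ℂ × ℂ => conj q.2) := contDiff_conj.comp contDiff_snd
  rw [contDiff_pi]
  intro i
  fin_cases i
  · exact ((contDiff_const.mul (contDiff_fst.pow 3))).sub
      ((contDiff_const.mul (contDiff_fst.pow 2)).mul (h2.pow 2))
  · exact ((contDiff_const.mul (contDiff_fst.pow 2)).mul contDiff_snd).sub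
      (((contDiff_const.mul contDiff_fst).mul contDiff_snd).mul (h2.pow 2))
  · exact ((contDiff_const.mul contDiff_fst).mul (contDiff_snd.pow 2)).sub
      ((contDiff_const.mul (contDiff_snd.pow 2)).mul (h2.pow 2))
  · exact (contDiff_const.mul (contDiff_snd.pow 3)).add
      (((contDiff_const.mul h1).mul contDiff_snd).mul (contDiff_const.add (contDiff_snd.mul h2)))

theorem HasDerivAt.conj' {γ : ℝ → ℂ} {v : ℂ} {s : ℝ} (h : HasDerivAt γ v s) :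
    HasDerivAt (fun s => conj (γ s)) (conj v) s :=
  (Complex.conjCLE.toContinuousLinearMap.hasFDerivAt (x := γ s)).comp_hasDerivAt s h

/-- The derivative of `Φ` along a curve. -/
theorem hasDerivAt_Φ {γ : ℝ → ℂ × ℂ} {v : ℂ × ℂ} {s : ℝ} (h : HasDerivAt γ v s) :
    HasDerivAt (fun s => Φ (γ s)) (dΦ (γ s) v) s := by
  have ha : HasDerivAt (fun s => (γ s).1) v.1 s := h.fst
  have hb : HasDerivAt (fun s => (γ s).2) v.2 s := h.snd
  have ha' : HasDerivAt (fun s => conj (γ s).1) (conj v.1) s := HasDerivAt.conj' ha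
  have hb' : HasDerivAt (fun s => conj (γ s).2) (conj v.2) s := HasDerivAt.conj' hb
  rw [hasDerivAt_pi]
  intro i
  fin_cases i
  · refine (((ha.pow 3).const_mul 2).sub (((ha.pow 2).const_mul 3).mul (hb'.pow 2))).congr_deriv ?_
    simp [dΦ]
    ring
  · refine ((((ha.pow 2).const_mul 2).mul hb).sub
      (((ha.const_mul 3).mul hb).mul (hb'.pow 2))).congr_deriv ?_
    simp [dΦ]
    ring
  · refine (((ha.const_mul 2).mul (hb.pow 2)).sub
      (((hb.pow 2).const_mul 3).mul (hb'.pow 2))).congr_deriv ?_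
    simp [dΦ]
    ring
  · refine (((hb.pow 3).const_mul 2).add (((ha'.const_mul 3).mul hb).mul
      ((hb.mul hb').const_add 1))).congr_deriv ?_
    simp [dΦ]
    ring

theorem fderiv_Φ_apply (q v : ℂ × ℂ) : fderiv ℝ Φ q v = dΦ q v := by
  have h1 : HasFDerivAt Φ (fderiv ℝ Φ q) q :=
    (contDiff_Φ.differentiable (by simp) q).hasFDerivAt
  have h2 : HasDerivAt (fun s : ℝ => q + s • v) v 0 := by
    have := ((hasDerivAt_id (0 : ℝ)).smul_const v).const_add q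
    simpa using this
  have h3 : HasDerivAt (fun s : ℝ => Φ (q + s • v)) (fderiv ℝ Φ q v) 0 := by
    have h1' : HasFDerivAt Φ (fderiv ℝ Φ q) (q + (0 : ℝ) • v) := by simpa using h1
    exact h1'.comp_hasDerivAt (0 : ℝ) h2
  have h4 := hasDerivAt_Φ h2
  have h5 := h3.unique h4
  simpa using h5

/-- The structure of the CR manifold: `Φ` is a CR map. -/
theorem dΦ_tv {q : ℂ × ℂ} (hq : q ∈ S) (ζ : ℂ) (x : ℝ) :
    dΦ q (tv q ζ x) = ζ • P q + ((x + 2 * (q.2 * ζ).im : ℝ) : ℂ) • PT q := by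
  obtain ⟨a, b⟩ := q
  have hS : a * conj a + b * conj b = 1 := hq
  have him : ((2 * (b * ζ).im : ℝ) : ℂ) = Complex.I * (conj b * conj ζ - b * ζ) := by
    have := Complex.sub_conj (b * ζ)
    rw [map_mul] at this
    have h2 : Complex.I * (conj b * conj ζ - b * ζ) = -Complex.I * (b * ζ - conj b * conj ζ) := by
      ring
    rw [h2, this]
    push_cast
    linear_combination (2 * ((b * ζ).im : ℂ)) * Complex.I_sq
  have hI := Complex.I_sq
  have e : ((x + 2 * (b * ζ).im : ℝ) : ℂ) = x + Complex.I * (conj b * conj ζ - b * ζ) := by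
    rw [← him]
    push_cast
    ring
  rw [e]
  funext i
  fin_cases i
  · simp [dΦ, tv, P, PT]
    linear_combination (6 * a ^ 3 * b * ζ - 6 * a ^ 3 * conj b * conj ζ) * hI
  · simp [dΦ, tv, P, PT]
    linear_combination (6 * a ^ 2 * b ^ 2 * ζ - 6 * a ^ 2 * b * conj b * conj ζ) * hI
  · simp [dΦ, tv, P, PT]
    linear_combination (6 * a * b ^ 3 * ζ - 6 * a * b ^ 2 * conj b * conj ζ) * hI
  · simp [dΦ, tv, P, PT]
    linear_combination (6 * b ^ 4 * ζ - 6 * b ^ 3 * conj b * conj ζ) * hI +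
      3 * b ^ 2 * conj ζ * hS

end Pool.Agent.helper65.CR
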