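import Pool.Agent.helper65.CR.Core

/-!
# No contact form of `M` is pseudo-Einstein
-/

open Filter Topology Set Metric
open scoped ContDiff ComplexConjugate

namespace Pool.Agent.helper65.CR

/-- The facts about the tangent spaces of `M` which are used. -/
structure TangentFacts : Prop where
  tangent : ∀ q ∈ S, ∀ v, IsTangent M (Φ q) v ↔ ∃ (ζ : ℂ) (r : ℝ), v = dΦ q (tv q ζ r)
  hol : ∀ q ∈ S, ∀ v, IsHolTangent M (Φ q) v ↔ ∃ ζ : ℂ, v = ζ • P q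
  inj : ∀ q ∈ S, ∀ (ζ ζ' : ℂ) (r r' : ℝ), dΦ q (tv q ζ r) = dΦ q (tv q ζ' r') → ζ = ζ' ∧ r = r'

theorem PT_eq {q : ℂ × ℂ} (hq : q ∈ S) : PT q = dΦ q (tv q 0 1) := by
  rw [dΦ_tv hq]
  simp

theorem smul_P_eq {q : ℂ × ℂ} (hq : q ∈ S) (ζ : ℂ) :
    ζ • P q = dΦ q (tv q ζ (-2 * (q.2 * ζ).im)) := by
  rw [dΦ_tv hq]
  have : -2 * (q.2 * ζ).im + 2 * (q.2 * ζ).im = 0 := by ring
  rw [this]
  simp

namespace TangentFacts

variable (TF : TangentFacts) {q : ℂ × ℂ} (hq : q ∈ S)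

include TF hq

theorem tv_tangent (ζ : ℂ) (r : ℝ) : IsTangent M (Φ q) (dΦ q (tv q ζ r)) :=
  (TF.tangent q hq _).2 ⟨ζ, r, rfl⟩

theorem P_hol (ζ : ℂ) : IsHolTangent M (Φ q) (ζ • P q) := (TF.hol q hq _).2 ⟨ζ, rfl⟩

theorem PT_tangent : IsTangent M (Φ q) (PT q) := by
  rw [PT_eq hq]
  exact TF.tv_tangent hq 0 1

theorem PT_not_hol : ¬ IsHolTangent M (Φ q) (PT q) := by
  intro h
  obtain ⟨ζ, hζ⟩ := (TF.hol q hq _).1 h
  rw [PT_eq hq, smul_P_eq hq] at hζ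
  obtain ⟨h1, h2⟩ := TF.inj q hq _ _ _ _ hζ
  rw [← h1] at h2
  simp at h2

theorem P_ne : P q ≠ 0 := by
  intro h
  have h1 := smul_P_eq hq 1
  rw [h, smul_zero] at h1
  have h2 : dΦ q (tv q 0 0) = 0 := by
    rw [dΦ_tv hq]
    simp
  rw [← h2] at h1
  exact zero_ne_one (TF.inj q hq _ _ _ _ h1).1

end TangentFacts

section

variable {θ : (Fin 4 → ℂ) → (Fin 4 → ℂ) →L[ℝ] ℝ}

/-- The pulled back contact form. -/
noncomputable def pth (θ : (Fin 4 → ℂ) → (Fin 4 → ℂ) →L[ℝ] ℝ) : Form1 := pull Φ (cx θ)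

theorem mem_M {q : ℂ × ℂ} (hq : q ∈ S) : Φ q ∈ M := ⟨q, hq, rfl⟩

theorem pull_tv {α : (Fin 4 → ℂ) → (Fin 4 → ℂ) →L[ℝ] ℂ} {q : ℂ × ℂ} (hq : q ∈ S) (ζ : ℂ) (x : ℝ) :
    pull Φ α q (tv q ζ x) = α (Φ q) (ζ • P q) +
      ((x + 2 * (q.2 * ζ).im : ℝ) : ℂ) * α (Φ q) (PT q) := by
  rw [pull_apply, fderiv_Φ_apply, dΦ_tv hq, map_add]
  congr 1
  rw [Complex.coe_smul, map_smul, Complex.real_smul]

theorem im_eq (b : ℂ) : (b.im : ℂ) + Complex.I * b.re = Complex.I * conj b := by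
  have h2 : conj b = (b.re : ℂ) - b.im * Complex.I := by
    apply Complex.ext <;> simp
  rw [h2]
  linear_combination (b.im : ℂ) * Complex.I_sq

theorem im_eq' (b : ℂ) : (b.im : ℂ) - Complex.I * b.re = -Complex.I * b := by
  have h := Complex.re_add_im b
  conv_rhs => rw [← h]
  linear_combination (b.im : ℂ) * Complex.I_sq

theorem aT_pull {α : (Fin 4 → ℂ) → (Fin 4 → ℂ) →L[ℝ] ℂ} {q : ℂ × ℂ} (hq : q ∈ S) :
    aT (pull Φ α) q = α (Φ q) (PT q) := by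
  rw [aT, pull_tv hq]
  simp

theorem aB_pull {α : (Fin 4 → ℂ) → (Fin 4 → ℂ) →L[ℝ] ℂ} {q : ℂ × ℂ} (hq : q ∈ S)
    (hα : α (Φ q) (Complex.I • P q) = Complex.I * α (Φ q) (P q)) :
    aB (pull Φ α) q = Complex.I * (conj q.2 * aT (pull Φ α) q) := by
  rw [aT_pull hq, aB, pull_tv hq, pull_tv hq, one_smul, hα]
  have h1 := im_eq q.2
  have h2 : (q.2 * Complex.I).im = q.2.re := by simp
  have h3 : (q.2 * 1).im = q.2.im := by simp
  rw [h2, h3]
  push_cast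
  linear_combination α (Φ q) (PT q) * h1 + (1 / 2) * α (Φ q) (P q) * Complex.I_sq

theorem aL_pull {α : (Fin 4 → ℂ) → (Fin 4 → ℂ) →L[ℝ] ℂ} {q : ℂ × ℂ} (hq : q ∈ S)
    (hα : α (Φ q) (Complex.I • P q) = Complex.I * α (Φ q) (P q)) :
    aL (pull Φ α) q + Complex.I * q.2 * aT (pull Φ α) q = α (Φ q) (P q) := by
  rw [aT_pull hq, aL, pull_tv hq, pull_tv hq, one_smul, hα]
  have h1 := im_eq' q.2
  have h2 : (q.2 * Complex.I).im = q.2.re := by simp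
  have h3 : (q.2 * 1).im = q.2.im := by simp
  rw [h2, h3]
  push_cast
  linear_combination α (Φ q) (PT q) * h1 - (1 / 2) * α (Φ q) (P q) * Complex.I_sq

/-- The real function `θ(T)`. -/
noncomputable def rho (θ : (Fin 4 → ℂ) → (Fin 4 → ℂ) →L[ℝ] ℝ) (q : ℂ × ℂ) : ℝ :=
  θ (Φ q) (fderiv ℝ Φ q (tv q 0 1))

theorem aT_pth (q : ℂ × ℂ) : aT (pth θ) q = (rho θ q : ℂ) := rfl

theorem rho_eq {q : ℂ × ℂ} (hq : q ∈ S) : rho θ q = θ (Φ q) (PT q) := by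
  rw [rho, fderiv_Φ_apply, ← PT_eq hq]

theorem rho_smooth (hθ : IsContactForm M θ) {q : ℂ × ℂ} (hq : q ∈ S) :
    ContDiffAt ℝ ∞ (rho θ) q := by
  have h1 : ContDiffAt ℝ ∞ (fun q => θ (Φ q)) q :=
    (hθ.smooth _ (mem_M hq)).comp q contDiff_Φ.contDiffAt
  have h2 : ContDiffAt ℝ ∞ (fderiv ℝ Φ) q := contDiff_Φ.contDiffAt.fderiv_right (by simp)
  exact h1.clm_apply (h2.clm_apply (contDiff_tv 0 1).contDiffAt)

theorem rho_ne (TF : TangentFacts) (hθ : IsContactForm M θ) {q : ℂ × ℂ} (hq : q ∈ S) :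
    rho θ q ≠ 0 := by
  rw [rho_eq hq]
  intro h
  exact TF.PT_not_hol hq ((hθ.ker _ (mem_M hq) _ (TF.PT_tangent hq)).1 h)

/-- The real function `ℓ`. -/
noncomputable def lr (q : ℂ × ℂ) : ℝ := 1 + 6 * Complex.normSq q.2

theorem lr_pos (q : ℂ × ℂ) : 0 < lr q := by
  have := Complex.normSq_nonneg q.2
  unfold lr
  positivity

theorem ell_eq (q : ℂ × ℂ) : ell q = (lr q : ℂ) := by
  unfold ell lr
  rw [mul_assoc, Complex.mul_conj]
  push_cast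
  rfl

theorem lr_smooth : ContDiff ℝ ∞ lr := by
  have h : lr = fun q : ℂ × ℂ => 1 + 6 * ((q.2).re ^ 2 + (q.2).im ^ 2) := by
    funext q
    unfold lr
    rw [Complex.normSq_apply]
    ring
  rw [h]
  have h1 : ContDiff ℝ ∞ fun q : ℂ × ℂ => (q.2).re := Complex.reCLM.contDiff.comp contDiff_snd
  have h2 : ContDiff ℝ ∞ fun q : ℂ × ℂ => (q.2).im := Complex.imCLM.contDiff.comp contDiff_snd
  exact contDiff_const.add (contDiff_const.mul ((h1.pow 2).add (h2.pow 2)))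

/-- The function `W`. -/
noncomputable def WW (θ : (Fin 4 → ℂ) → (Fin 4 → ℂ) →L[ℝ] ℝ) (q : ℂ × ℂ) : ℂ :=
  ((3 / 2 * Real.log (rho θ q) + 1 / 2 * Real.log (lr q) : ℝ) : ℂ)

theorem der_ofReal {f : ℂ × ℂ → ℝ} {q : ℂ × ℂ} (hf : DifferentiableAt ℝ f q) (ζ : ℂ) (x : ℝ) :
    der ζ x (fun p => (f p : ℂ)) q = ((fderiv ℝ f q (tv q ζ x) : ℝ) : ℂ) := by
  unfold der
  have h1 : HasFDerivAt (fun p => (f p : ℂ)) (Complex.ofRealCLM.comp (fderiv ℝ f q)) q :=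
    (Complex.ofRealCLM.hasFDerivAt (x := f q)).comp q hf.hasFDerivAt
  rw [h1.fderiv]
  rfl

theorem LW_WW (TF : TangentFacts) (hθ : IsContactForm M θ) {q : ℂ × ℂ} (hq : q ∈ S) :
    LW (pth θ) (WW θ) q := by
  have h1 := rho_smooth hθ hq
  have h2 := rho_ne TF hθ hq
  have h3 : ContDiffAt ℝ ∞ lr q := lr_smooth.contDiffAt
  have h4 := (lr_pos q).ne'
  have s1 : ContDiffAt ℝ ∞ (fun q => 3 / 2 * Real.log (rho θ q) + 1 / 2 * Real.log (lr q)) q :=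
    (contDiffAt_const.mul (h1.log h2)).add (contDiffAt_const.mul (h3.log h4))
  have d1 := h1.differentiableAt (by simp)
  have d3 := h3.differentiableAt (by simp)
  have ds := s1.differentiableAt (by simp)
  have e1 : HasFDerivAt (fun q => 3 / 2 * Real.log (rho θ q) + 1 / 2 * Real.log (lr q))
      ((3 / 2 : ℝ) • ((rho θ q)⁻¹ • fderiv ℝ (rho θ) q) +
        (1 / 2 : ℝ) • ((lr q)⁻¹ • fderiv ℝ lr q)) q :=
    ((d1.hasFDerivAt.log h2).const_mul _).add ((d3.hasFDerivAt.log h4).const_mul _)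
  refine ⟨Complex.ofRealCLM.contDiff.contDiffAt.comp q s1, fun ζ x => ?_, fun ζ x => ?_⟩
  · have : WW θ = fun p => ((3 / 2 * Real.log (rho θ p) + 1 / 2 * Real.log (lr p) : ℝ) : ℂ) := rfl
    rw [this, der_ofReal ds, Complex.conj_ofReal]
  · have : WW θ = fun p => ((3 / 2 * Real.log (rho θ p) + 1 / 2 * Real.log (lr p) : ℝ) : ℂ) := rfl
    have h5 : aT (pth θ) = fun p => (rho θ p : ℂ) := rfl
    have h6 : ell = fun p => (lr p : ℂ) := funext ell_eq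
    rw [this, der_ofReal ds, h5, h6, der_ofReal d1, der_ofReal d3, e1.fderiv]
    simp only [add_apply, smul_apply, smul_eq_mul]
    rw [← Complex.ofReal_mul, ← Complex.ofReal_mul]
    norm_cast
    field_simp

theorem extD_pull_tv {α : (Fin 4 → ℂ) → (Fin 4 → ℂ) →L[ℝ] ℂ} {q : ℂ × ℂ}
    (hα : DifferentiableAt ℝ α (Φ q)) (v w : ℂ × ℂ) :
    extD (pull Φ α) q v w = extD α (Φ q) (dΦ q v) (dΦ q w) := by
  rw [extD_pull contDiff_Φ.contDiffAt hα, fderiv_Φ_apply, fderiv_Φ_apply]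

theorem LPE_of (TF : TangentFacts) (hθ : IsContactForm M θ) {U : Set (Fin 4 → ℂ)}
    {θ₁ om : (Fin 4 → ℂ) → (Fin 4 → ℂ) →L[ℝ] ℂ} {h R : (Fin 4 → ℂ) → ℝ} {A : (Fin 4 → ℂ) → ℂ}
    (hW : IsWebster M U θ θ₁ om h A) (hR : ContDiffOn ℝ ∞ R U)
    (hL : ∀ y ∈ M ∩ U, ∀ v w, IsTangent M y v → IsTangent M y w → leeForm θ om R y v w = 0)
    {p : ℂ × ℂ} (hp : p ∈ S) (hpU : Φ p ∈ U) :
    LPE (pth θ) (pull Φ θ₁) (pull Φ om) (fun q => (h (Φ q) : ℂ)) (fun q => (R (Φ q) : ℂ))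
      (fun q => A (Φ q)) p := by
  have hU : U ∈ 𝓝 (Φ p) := hW.isOpen.mem_nhds hpU
  have hM : Φ p ∈ M ∩ U := ⟨mem_M hp, hpU⟩
  have sΦ : ContDiffAt ℝ ∞ Φ p := contDiff_Φ.contDiffAt
  have s1 : ContDiffAt ℝ ∞ θ₁ (Φ p) := hW.smooth_coframe.contDiffAt hU
  have s2 : ContDiffAt ℝ ∞ om (Φ p) := hW.smooth_connection.contDiffAt hU
  have s3 : ContDiffAt ℝ ∞ h (Φ p) := hW.smooth_levi.contDiffAt hU
  have s4 : ContDiffAt ℝ ∞ R (Φ p) := hR.contDiffAt hU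
  have s0 : ContDiffAt ℝ ∞ θ (Φ p) := hθ.smooth _ hM.1
  have d0 : DifferentiableAt ℝ θ (Φ p) := s0.differentiableAt (by simp)
  have d1 : DifferentiableAt ℝ θ₁ (Φ p) := s1.differentiableAt (by simp)
  have d2 : DifferentiableAt ℝ om (Φ p) := s2.differentiableAt (by simp)
  have d4 : DifferentiableAt ℝ R (Φ p) := s4.differentiableAt (by simp)
  have dcx : DifferentiableAt ℝ (cx θ) (Φ p) := (cx_smooth s0).differentiableAt (by simp)
  have hI : θ₁ (Φ p) (Complex.I • P p) = Complex.I * θ₁ (Φ p) (P p) := by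
    have := hW.type _ hM (P p) (by simpa using TF.P_hol hp 1)
    exact this
  have hIθ : cx θ (Φ p) (Complex.I • P p) = Complex.I * cx θ (Φ p) (P p) := by
    have a1 : θ (Φ p) (Complex.I • P p) = 0 :=
      (hθ.ker _ hM.1 _ (TF.P_hol hp Complex.I).1).2 (TF.P_hol hp Complex.I)
    have a2 : θ (Φ p) (P p) = 0 := by
      have a3 := TF.P_hol hp 1
      rw [one_smul] at a3
      exact (hθ.ker _ hM.1 _ a3.1).2 a3
    rw [cx_apply, cx_apply, a1, a2]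
    simp
  refine ⟨hp, pull_smooth sΦ (cx_smooth s0), pull_smooth sΦ s1, pull_smooth sΦ s2,
    Complex.ofRealCLM.contDiff.contDiffAt.comp p (s3.comp p sΦ),
    Complex.ofRealCLM.contDiff.contDiffAt.comp p (s4.comp p sΦ), fun v => ?_,
    Complex.conj_ofReal _, Complex.conj_ofReal _, ?_, ?_, ?_, ?_, ?_, ?_, ?_, ?_, ?_⟩
  · exact Complex.conj_ofReal _
  · exact_mod_cast hW.levi_ne _ hM
  · rw [aT_pth]
    exact_mod_cast rho_ne TF hθ hp
  · rw [aL_pull hp hI]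
    have a3 := TF.P_hol hp 1
    rw [one_smul] at a3
    exact hW.ne_zero _ hM _ a3 (TF.P_ne hp)
  · exact aB_pull hp hIθ
  · exact aB_pull hp hI
  · intro ζ x ζ' x'
    rw [pth, extD_pull_tv dcx, extD_cx d0, hW.levi _ hM _ _ (TF.tv_tangent hp ζ x)
      (TF.tv_tangent hp ζ' x'), wedge, pull_apply, pull_apply, fderiv_Φ_apply, fderiv_Φ_apply]
  · intro ζ x ζ' x'
    rw [extD_pull_tv d1, hW.torsion _ hM _ _ (TF.tv_tangent hp ζ x)
      (TF.tv_tangent hp ζ' x'), wedge, wedge, pth]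
    simp only [pull_apply, fderiv_Φ_apply, cx_apply]
  · intro ζ x
    have a1 : DifferentiableAt ℝ (fun q => h (Φ q)) p := (s3.comp p sΦ).differentiableAt (by simp)
    have a2 : fderiv ℝ (fun q => h (Φ q)) p = (fderiv ℝ h (Φ p)).comp (fderiv ℝ Φ p) :=
      fderiv_comp p (s3.differentiableAt (by simp)) (sΦ.differentiableAt (by simp))
    rw [der_ofReal a1, a2]
    simp only [ContinuousLinearMap.coe_comp, Function.comp_apply, pull_apply, fderiv_Φ_apply]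
    exact hW.metric _ hM _ (TF.tv_tangent hp ζ x)
  · intro ζ x ζ' x'
    have a1 : (fun y => ((R (Φ y) : ℝ) : ℂ) • pth θ y) = pull Φ (cx (fun x => R x • θ x)) := by
      funext y
      refine ContinuousLinearMap.ext fun v => ?_
      simp [pth, pull_apply, cx_apply]
    have a2 : DifferentiableAt ℝ (fun x => R x • θ x) (Φ p) := d4.smul d0
    have a3 : DifferentiableAt ℝ (cx (fun x => R x • θ x)) (Φ p) :=
      (cx_smooth (s4.smul s0)).differentiableAt (by simp)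
    rw [a1, extD_pull_tv a3, extD_cx a2, extD_pull_tv d2]
    have a4 := hL _ hM _ _ (TF.tv_tangent hp ζ x) (TF.tv_tangent hp ζ' x')
    unfold leeForm at a4
    linear_combination (-3) * a4

/-- No contact form of `M` is pseudo-Einstein. -/
theorem not_pseudoEinstein (TF : TangentFacts) (hθ : IsContactForm M θ) :
    ¬ IsPseudoEinstein M θ := by
  intro hPE
  have hWs : SmS (WW θ) := fun q hq => (LW_WW TF hθ hq).smooth
  refine false_of_good hWs fun q hq => ?_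
  obtain ⟨U, θ₁, om, h, A, R, hqU, hW, hR, -, hL⟩ := hPE _ (mem_M hq)
  refine ⟨KK (pth θ) (pull Φ θ₁) (pull Φ om) (fun q => (R (Φ q) : ℂ)) (WW θ), ?_⟩
  have h1 : ∀ᶠ p in 𝓝[S] q, p ∈ S ∧ Φ p ∈ U := by
    have h3 : ∀ᶠ p in 𝓝[S] q, Φ p ∈ U := mem_nhdsWithin_of_mem_nhds
      (contDiff_Φ.continuous.continuousAt.preimage_mem_nhds (hW.isOpen.mem_nhds hqU))
    filter_upwards [h3, self_mem_nhdsWithin] with p h4 h5
    exact ⟨h5, h4⟩
  have h2 : ∀ᶠ p in 𝓝[S] q, LPE (pth θ) (pull Φ θ₁) (pull Φ om) (fun q => (h (Φ q) : ℂ))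
      (fun q => (R (Φ q) : ℂ)) (fun q => A (Φ q)) p :=
    h1.mono fun p hp => LPE_of TF hθ hW hR hL hp.1 hp.2
  filter_upwards [eventually_eventually_nhdsWithin.2 h2, self_mem_nhdsWithin] with p hp hpS
  exact good_of_LPE (LW_WW TF hθ hpS) hpS hp

end

end Pool.Agent.helper65.CR
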