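import Pool.Agent.helper65.CR.Stokes

/-!
# The derivations `L`, `L̄`, `T` and the obstruction
-/

open Filter Topology Set Metric MeasureTheory
open scoped ContDiff ComplexConjugate

namespace Pool.Agent.helper65.CR

/-- The derivation `L`. -/
noncomputable def DL (f : ℂ × ℂ → ℂ) (q : ℂ × ℂ) : ℂ :=
  (1 / 2) * (der 1 0 f q - Complex.I * der Complex.I 0 f q)

/-- The derivation `L̄`. -/
noncomputable def DB (f : ℂ × ℂ → ℂ) (q : ℂ × ℂ) : ℂ :=
  (1 / 2) * (der 1 0 f q + Complex.I * der Complex.I 0 f q)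

/-- The derivation `T`. -/
noncomputable def DT (f : ℂ × ℂ → ℂ) (q : ℂ × ℂ) : ℂ := der 0 1 f q

section Rules

variable {f g : ℂ × ℂ → ℂ} {q : ℂ × ℂ}

theorem der_mul (hf : DifferentiableAt ℝ f q) (hg : DifferentiableAt ℝ g q) (ζ : ℂ) (x : ℝ) :
    der ζ x (fun p => f p * g p) q = f q * der ζ x g q + g q * der ζ x f q := by
  unfold der
  rw [fderiv_fun_mul hf hg]
  simp

theorem der_add (hf : DifferentiableAt ℝ f q) (hg : DifferentiableAt ℝ g q) (ζ : ℂ) (x : ℝ) :
    der ζ x (fun p => f p + g p) q = der ζ x f q + der ζ x g q := by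
  unfold der
  rw [fderiv_fun_add hf hg]
  simp

theorem der_const_mul (hf : DifferentiableAt ℝ f q) (c : ℂ) (ζ : ℂ) (x : ℝ) :
    der ζ x (fun p => c * f p) q = c * der ζ x f q := by
  unfold der
  rw [fderiv_const_mul hf]
  simp

theorem der_conj (hf : DifferentiableAt ℝ f q) (ζ : ℂ) (x : ℝ) :
    der ζ x (fun p => conj (f p)) q = conj (der ζ x f q) := by
  unfold der
  have h1 : HasFDerivAt (fun p => conj (f p))
      ((Complex.conjCLE.toContinuousLinearMap).comp (fderiv ℝ f q)) q :=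
    (Complex.conjCLE.toContinuousLinearMap.hasFDerivAt (x := f q)).comp q hf.hasFDerivAt
  rw [h1.fderiv]
  rfl

theorem DL_mul (hf : DifferentiableAt ℝ f q) (hg : DifferentiableAt ℝ g q) :
    DL (fun p => f p * g p) q = f q * DL g q + g q * DL f q := by
  unfold DL
  rw [der_mul hf hg, der_mul hf hg]
  ring

theorem DB_mul (hf : DifferentiableAt ℝ f q) (hg : DifferentiableAt ℝ g q) :
    DB (fun p => f p * g p) q = f q * DB g q + g q * DB f q := by
  unfold DB
  rw [der_mul hf hg, der_mul hf hg]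
  ring

theorem DT_mul (hf : DifferentiableAt ℝ f q) (hg : DifferentiableAt ℝ g q) :
    DT (fun p => f p * g p) q = f q * DT g q + g q * DT f q := by
  unfold DT
  rw [der_mul hf hg]

theorem DL_add (hf : DifferentiableAt ℝ f q) (hg : DifferentiableAt ℝ g q) :
    DL (fun p => f p + g p) q = DL f q + DL g q := by
  unfold DL
  rw [der_add hf hg, der_add hf hg]
  ring

theorem DB_add (hf : DifferentiableAt ℝ f q) (hg : DifferentiableAt ℝ g q) :
    DB (fun p => f p + g p) q = DB f q + DB g q := by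
  unfold DB
  rw [der_add hf hg, der_add hf hg]
  ring

theorem DT_add (hf : DifferentiableAt ℝ f q) (hg : DifferentiableAt ℝ g q) :
    DT (fun p => f p + g p) q = DT f q + DT g q := by
  unfold DT
  rw [der_add hf hg]

theorem DL_const_mul (hf : DifferentiableAt ℝ f q) (c : ℂ) :
    DL (fun p => c * f p) q = c * DL f q := by
  unfold DL
  rw [der_const_mul hf, der_const_mul hf]
  ring

theorem DB_const_mul (hf : DifferentiableAt ℝ f q) (c : ℂ) :
    DB (fun p => c * f p) q = c * DB f q := by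
  unfold DB
  rw [der_const_mul hf, der_const_mul hf]
  ring

theorem DT_const_mul (hf : DifferentiableAt ℝ f q) (c : ℂ) :
    DT (fun p => c * f p) q = c * DT f q := by
  unfold DT
  rw [der_const_mul hf]

theorem DL_conj (hf : DifferentiableAt ℝ f q) :
    DL (fun p => conj (f p)) q = conj (DB f q) := by
  unfold DL DB
  rw [der_conj hf, der_conj hf]
  simp only [map_mul, map_sub, map_add, map_div₀, map_one, map_ofNat, Complex.conj_I]
  ring

theorem DB_conj (hf : DifferentiableAt ℝ f q) :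
    DB (fun p => conj (f p)) q = conj (DL f q) := by
  unfold DL DB
  rw [der_conj hf, der_conj hf]
  simp only [map_mul, map_sub, map_add, map_div₀, map_one, map_ofNat, Complex.conj_I]
  ring

theorem DT_conj (hf : DifferentiableAt ℝ f q) :
    DT (fun p => conj (f p)) q = conj (DT f q) := by
  unfold DT
  rw [der_conj hf]

end Rules

section Coordinates

variable (q : ℂ × ℂ)

theorem diff_fst : DifferentiableAt ℝ (fun p : ℂ × ℂ => p.1) q := differentiableAt_fst
theorem diff_snd : DifferentiableAt ℝ (fun p : ℂ × ℂ => p.2) q := differentiableAt_snd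

theorem diff_cfst : DifferentiableAt ℝ (fun p : ℂ × ℂ => conj p.1) q :=
  (contDiff_conj.comp contDiff_fst).differentiable (n := 1) (by simp) q

theorem diff_csnd : DifferentiableAt ℝ (fun p : ℂ × ℂ => conj p.2) q :=
  (contDiff_conj.comp contDiff_snd).differentiable (n := 1) (by simp) q

theorem der_fst (ζ : ℂ) (x : ℝ) : der ζ x (fun p => p.1) q = (tv q ζ x).1 := by
  unfold der
  rw [fderiv_fst]
  rfl

theorem der_snd (ζ : ℂ) (x : ℝ) : der ζ x (fun p => p.2) q = (tv q ζ x).2 := by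
  unfold der
  rw [fderiv_snd]
  rfl

theorem DL_fst : DL (fun p => p.1) q = -conj q.2 := by
  unfold DL
  rw [der_fst, der_fst]
  simp only [tv]
  push_cast
  linear_combination (1 / 2 * conj q.2) * Complex.I_sq

theorem DL_snd : DL (fun p => p.2) q = conj q.1 := by
  unfold DL
  rw [der_snd, der_snd]
  simp only [tv]
  push_cast
  linear_combination (-1 / 2 * conj q.1) * Complex.I_sq

theorem DB_fst : DB (fun p => p.1) q = 0 := by
  unfold DB
  rw [der_fst, der_fst]
  simp only [tv]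
  push_cast
  linear_combination (-1 / 2 * conj q.2) * Complex.I_sq

theorem DB_snd : DB (fun p => p.2) q = 0 := by
  unfold DB
  rw [der_snd, der_snd]
  simp only [tv]
  push_cast
  linear_combination (1 / 2 * conj q.1) * Complex.I_sq

theorem DT_fst : DT (fun p => p.1) q = Complex.I * q.1 := by
  unfold DT
  rw [der_fst]
  simp [tv]

theorem DT_snd : DT (fun p => p.2) q = Complex.I * q.2 := by
  unfold DT
  rw [der_snd]
  simp [tv]

theorem DL_cfst : DL (fun p => conj p.1) q = 0 := by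
  rw [DL_conj (diff_fst q), DB_fst, map_zero]

theorem DL_csnd : DL (fun p => conj p.2) q = 0 := by
  rw [DL_conj (diff_snd q), DB_snd, map_zero]

theorem DB_cfst : DB (fun p => conj p.1) q = -q.2 := by
  rw [DB_conj (diff_fst q), DL_fst, map_neg, Complex.conj_conj]

theorem DB_csnd : DB (fun p => conj p.2) q = q.1 := by
  rw [DB_conj (diff_snd q), DL_snd, Complex.conj_conj]

theorem DT_cfst : DT (fun p => conj p.1) q = -Complex.I * conj q.1 := by
  rw [DT_conj (diff_fst q), DT_fst, map_mul, Complex.conj_I]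

theorem DT_csnd : DT (fun p => conj p.2) q = -Complex.I * conj q.2 := by
  rw [DT_conj (diff_snd q), DT_snd, map_mul, Complex.conj_I]

end Coordinates

/-! ### Integration by parts -/

theorem SmS.mul {f g : ℂ × ℂ → ℂ} (hf : SmS f) (hg : SmS g) : SmS fun q => f q * g q :=
  fun q hq => (hf q hq).mul (hg q hq)

theorem SmS.add {f g : ℂ × ℂ → ℂ} (hf : SmS f) (hg : SmS g) : SmS fun q => f q + g q :=
  fun q hq => (hf q hq).add (hg q hq)

theorem SmS.sub {f g : ℂ × ℂ → ℂ} (hf : SmS f) (hg : SmS g) : SmS fun q => f q - g q :=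
  fun q hq => (hf q hq).sub (hg q hq)

theorem SmS.neg {f : ℂ × ℂ → ℂ} (hf : SmS f) : SmS fun q => -f q :=
  fun q hq => (hf q hq).neg

theorem SmS.const (c : ℂ) : SmS fun _ => c := fun _ _ => contDiffAt_const

theorem SmS.conj {f : ℂ × ℂ → ℂ} (hf : SmS f) : SmS fun q => conj (f q) :=
  fun q hq => contDiff_conj.contDiffAt.comp q (hf q hq)

theorem SmS.fst : SmS fun q => q.1 := fun _ _ => contDiffAt_fst
theorem SmS.snd : SmS fun q => q.2 := fun _ _ => contDiffAt_snd

theorem SmS.DL {f : ℂ × ℂ → ℂ} (hf : SmS f) : SmS (DL f) :=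
  (SmS.const _).mul ((hf.der 1 0).sub ((SmS.const _).mul (hf.der Complex.I 0)))

theorem SmS.DB {f : ℂ × ℂ → ℂ} (hf : SmS f) : SmS (DB f) :=
  (SmS.const _).mul ((hf.der 1 0).add ((SmS.const _).mul (hf.der Complex.I 0)))

theorem SmS.DT {f : ℂ × ℂ → ℂ} (hf : SmS f) : SmS (DT f) := hf.der 0 1

theorem SmS.integrable {f : ℂ × ℂ → ℂ} (hf : SmS f) : Integrable f μ :=
  integrable_of_continuousOn hf.continuousOn

theorem int_X {f : ℂ × ℂ → ℂ} (hf : SmS f) : ∫ q, der 1 0 f q ∂μ = 0 :=
  integral_der_unit (by simp) hf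

theorem int_Y {f : ℂ × ℂ → ℂ} (hf : SmS f) : ∫ q, der Complex.I 0 f q ∂μ = 0 :=
  integral_der_unit (by simp) hf

theorem int_DT {f : ℂ × ℂ → ℂ} (hf : SmS f) : ∫ q, DT f q ∂μ = 0 :=
  integral_der_unit (by simp) hf

theorem int_DL {f : ℂ × ℂ → ℂ} (hf : SmS f) : ∫ q, DL f q ∂μ = 0 := by
  unfold CR.DL
  rw [integral_const_mul, integral_sub (hf.der 1 0).integrable
    ((hf.der Complex.I 0).integrable.const_mul _), integral_const_mul, int_X hf, int_Y hf]
  simp

theorem int_DB {f : ℂ × ℂ → ℂ} (hf : SmS f) : ∫ q, DB f q ∂μ = 0 := by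
  unfold CR.DB
  rw [integral_const_mul, integral_add (hf.der 1 0).integrable
    ((hf.der Complex.I 0).integrable.const_mul _), integral_const_mul, int_X hf, int_Y hf]
  simp

theorem integral_congr_S {f g : ℂ × ℂ → ℂ} (h : ∀ q ∈ S, f q = g q) :
    ∫ q, f q ∂μ = ∫ q, g q ∂μ :=
  integral_congr_ae (ae_mem_S.mono fun q hq => h q hq)

/-- The obstruction. -/
theorem obstruction {k₀ k₁ k₂ W : ℂ × ℂ → ℂ} (h0 : SmS k₀) (h1 : SmS k₁) (h2 : SmS k₂)
    (hW : SmS W)
    (e1 : ∀ q ∈ S, DT k₂ q - DB k₀ q - 2 * Complex.I * k₂ q = 0)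
    (e3 : ∀ q ∈ S, DL k₂ q - DB k₁ q + Complex.I * k₀ q = 0)
    (e : ∀ q ∈ S, k₂ q - Complex.I * conj q.2 * k₀ q =
      conj q.2 - (DB W q - Complex.I * conj q.2 * DT W q)) : False := by
  have hI : Complex.I ≠ 0 := Complex.I_ne_zero
  have hI2 := Complex.I_sq
  -- ∫ b k₂ = 0
  have s1 : ∫ q, q.2 * k₂ q ∂μ = 0 := by
    have a1 := int_DT (SmS.snd.mul h2)
    have a2 := int_DB (SmS.snd.mul h0)
    have a3 : ∫ q, (DT (fun p => p.2 * k₂ p) q - DB (fun p => p.2 * k₀ p) q) ∂μ = 0 := by
      rw [integral_sub (SmS.snd.mul h2).DT.integrable (SmS.snd.mul h0).DB.integrable, a1, a2,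
        sub_zero]
    have a4 : ∫ q, (DT (fun p => p.2 * k₂ p) q - DB (fun p => p.2 * k₀ p) q) ∂μ =
        ∫ q, 3 * Complex.I * (q.2 * k₂ q) ∂μ := by
      refine integral_congr_S fun q hq => ?_
      rw [DT_mul (diff_snd q) (h2.differentiableAt hq), DB_mul (diff_snd q)
        (h0.differentiableAt hq), DT_snd, DB_snd]
      linear_combination q.2 * e1 q hq
    rw [a4, integral_const_mul] at a3
    exact (mul_eq_zero.1 a3).resolve_left (mul_ne_zero (by norm_num) hI)
  -- ∫ k₀ = 0
  have s2 : ∫ q, k₀ q ∂μ = 0 := by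
    have a1 := int_DL h2
    have a2 := int_DB h1
    have a3 : ∫ q, (DL k₂ q - DB k₁ q) ∂μ = 0 := by
      rw [integral_sub h2.DL.integrable h1.DB.integrable, a1, a2, sub_zero]
    have a4 : ∫ q, (DL k₂ q - DB k₁ q) ∂μ = ∫ q, -Complex.I * k₀ q ∂μ := by
      refine integral_congr_S fun q hq => ?_
      linear_combination e3 q hq
    rw [a4, integral_const_mul] at a3
    exact (mul_eq_zero.1 a3).resolve_left (neg_ne_zero.2 hI)
  -- ∫ (|a|² - |b|²) k₀ = 0
  have hab : SmS fun q => conj q.1 * conj q.2 := SmS.fst.conj.mul SmS.snd.conj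
  have s3 : ∫ q, (q.1 * conj q.1 - q.2 * conj q.2) * k₀ q ∂μ = 0 := by
    have a1 := int_DT (hab.mul h2)
    have a2 := int_DB (hab.mul h0)
    have a3 : ∫ q, (DT (fun p => conj p.1 * conj p.2 * k₂ p) q -
        DB (fun p => conj p.1 * conj p.2 * k₀ p) q) ∂μ = 0 := by
      rw [integral_sub (hab.mul h2).DT.integrable (hab.mul h0).DB.integrable, a1, a2, sub_zero]
    have a4 : ∫ q, (DT (fun p => conj p.1 * conj p.2 * k₂ p) q -
        DB (fun p => conj p.1 * conj p.2 * k₀ p) q) ∂μ =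
        ∫ q, -((q.1 * conj q.1 - q.2 * conj q.2) * k₀ q) ∂μ := by
      refine integral_congr_S fun q hq => ?_
      rw [DT_mul (hab.differentiableAt hq) (h2.differentiableAt hq),
        DB_mul (hab.differentiableAt hq) (h0.differentiableAt hq),
        DT_mul (diff_cfst q) (diff_csnd q), DB_mul (diff_cfst q) (diff_csnd q), DT_cfst, DT_csnd,
        DB_cfst, DB_csnd]
      linear_combination (conj q.1 * conj q.2) * e1 q hq
    rw [a4, integral_neg, neg_eq_zero] at a3
    exact a3
  -- ∫ |b|² k₀ = 0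
  have hbb : SmS fun q => q.2 * conj q.2 := SmS.snd.mul SmS.snd.conj
  have s4 : ∫ q, q.2 * conj q.2 * k₀ q ∂μ = 0 := by
    have a1 : ∫ q, 2 * (q.2 * conj q.2 * k₀ q) ∂μ =
        ∫ q, (k₀ q - (q.1 * conj q.1 - q.2 * conj q.2) * k₀ q) ∂μ := by
      refine integral_congr_S fun q hq => ?_
      have hS : q.1 * conj q.1 + q.2 * conj q.2 = 1 := hq
      linear_combination (k₀ q) * hS
    have hd : SmS fun q => (q.1 * conj q.1 - q.2 * conj q.2) * k₀ q :=
      ((SmS.fst.mul SmS.fst.conj).sub hbb).mul h0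
    rw [integral_sub h0.integrable hd.integrable, s2, s3, sub_zero, integral_const_mul] at a1
    exact (mul_eq_zero.1 a1).resolve_left (by norm_num)
  -- ∫ b Z̄ W = 0
  have s5 : ∫ q, q.2 * (DB W q - Complex.I * conj q.2 * DT W q) ∂μ = 0 := by
    have a1 := int_DB (SmS.snd.mul hW)
    have a2 := int_DT (hbb.mul hW)
    have a3 : ∫ q, q.2 * (DB W q - Complex.I * conj q.2 * DT W q) ∂μ =
        ∫ q, (DB (fun p => p.2 * W p) q - Complex.I * DT (fun p => p.2 * conj p.2 * W p) q) ∂μ := by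
      refine integral_congr_S fun q hq => ?_
      rw [DB_mul (diff_snd q) (hW.differentiableAt hq),
        DT_mul (hbb.differentiableAt hq) (hW.differentiableAt hq),
        DT_mul (diff_snd q) (diff_csnd q), DB_snd, DT_snd, DT_csnd]
      ring
    rw [a3, integral_sub (SmS.snd.mul hW).DB.integrable
      ((hbb.mul hW).DT.integrable.const_mul _), integral_const_mul, a1, a2]
    simp
  -- ∫ |b|² = 0
  have s6 : ∫ q, q.2 * conj q.2 ∂μ = 0 := by
    have a1 : ∫ q, q.2 * conj q.2 ∂μ = ∫ q, (q.2 * k₂ q - Complex.I * (q.2 * conj q.2 * k₀ q) +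
        q.2 * (DB W q - Complex.I * conj q.2 * DT W q)) ∂μ := by
      refine integral_congr_S fun q hq => ?_
      linear_combination (-q.2) * e q hq
    have hi1 := (SmS.snd.mul h2).integrable
    have hi2 := (hbb.mul h0).integrable.const_mul Complex.I
    have hi3 : SmS fun q => q.2 * (DB W q - Complex.I * conj q.2 * DT W q) :=
      SmS.snd.mul (hW.DB.sub (((SmS.const _).mul SmS.snd.conj).mul hW.DT))
    have hi12 : Integrable (fun q => q.2 * k₂ q - Complex.I * (q.2 * conj q.2 * k₀ q)) μ :=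
      hi1.sub hi2
    rw [a1, integral_add hi12 hi3.integrable, integral_sub hi1 hi2, integral_const_mul, s1, s4, s5]
    simp
  -- ∫ (|a|² - |b|²) = 0
  have s7 : ∫ q, (q.1 * conj q.1 - q.2 * conj q.2) ∂μ = 0 := by
    have a1 := int_DB hab
    rw [← a1]
    refine integral_congr_S fun q hq => ?_
    rw [DB_mul (diff_cfst q) (diff_csnd q), DB_cfst, DB_csnd]
    ring
  have s8 : ∫ _q, (1 : ℂ) ∂μ = 0 := by
    have a1 : ∫ _q, (1 : ℂ) ∂μ = ∫ q, ((q.1 * conj q.1 - q.2 * conj q.2) +
        2 * (q.2 * conj q.2)) ∂μ := by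
      refine integral_congr_S fun q hq => ?_
      have hS : q.1 * conj q.1 + q.2 * conj q.2 = 1 := hq
      linear_combination -hS
    have hd : SmS fun q => q.1 * conj q.1 - q.2 * conj q.2 := (SmS.fst.mul SmS.fst.conj).sub hbb
    rw [a1, integral_add hd.integrable (hbb.integrable.const_mul _), integral_const_mul, s6, s7]
    simp
  rw [integral_const, Complex.real_smul, mul_one] at s8
  have s9 : μ.real univ = 0 := by exact_mod_cast s8
  rw [Measure.real, ENNReal.toReal_eq_zero_iff] at s9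
  rcases s9 with s9 | s9
  · exact μ_univ_ne s9
  · exact measure_ne_top μ univ s9

end Pool.Agent.helper65.CR
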