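import Pool.Agent.helper65.CR.Local

/-!
# Pull-backs of one-forms
-/

open Filter Topology Set Metric
open scoped ContDiff ComplexConjugate

namespace Pool.Agent.helper65.CR

theorem two_le : (2 : WithTop ℕ∞) ≤ ∞ := WithTop.coe_le_coe.2 (le_top : (2 : ℕ∞) ≤ ⊤)

theorem one_add_one_le : (1 : WithTop ℕ∞) + 1 ≤ ∞ := by
  rw [one_add_one_eq_two]
  exact two_le

theorem min_le : minSmoothness ℝ 2 ≤ ∞ := by
  rw [minSmoothness_of_isRCLikeNormedField]
  exact two_le

section General

variable {E F : Type} [NormedAddCommGroup E] [NormedSpace ℂ E] [NormedAddCommGroup F]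
  [NormedSpace ℂ F] {G : Type} [NormedAddCommGroup G] [NormedSpace ℝ G]

/-- The pull-back of a one-form. -/
noncomputable def pull (f : E → F) (α : F → F →L[ℝ] G) (x : E) : E →L[ℝ] G :=
  (α (f x)).comp (fderiv ℝ f x)

theorem pull_apply (f : E → F) (α : F → F →L[ℝ] G) (x v : E) :
    pull f α x v = α (f x) (fderiv ℝ f x v) := rfl

theorem pull_smooth {f : E → F} {α : F → F →L[ℝ] G} {x : E} (hf : ContDiffAt ℝ ∞ f x)
    (hα : ContDiffAt ℝ ∞ α (f x)) : ContDiffAt ℝ ∞ (pull f α) x := by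
  have h1 : ContDiffAt ℝ ∞ (fun x => α (f x)) x := hα.comp x hf
  have h2 : ContDiffAt ℝ ∞ (fderiv ℝ f) x := hf.fderiv_right (by simp)
  exact h1.clm_comp h2

theorem symm_snd {f : E → F} {x : E} (hf : ContDiffAt ℝ ∞ f x) (v w : E) :
    fderiv ℝ (fderiv ℝ f) x v w = fderiv ℝ (fderiv ℝ f) x w v :=
  hf.isSymmSndFDerivAt min_le v w

/-- The exterior derivative commutes with pull-backs. -/
theorem extD_pull {f : E → F} {α : F → F →L[ℝ] G} {x : E} (hf : ContDiffAt ℝ ∞ f x)
    (hα : DifferentiableAt ℝ α (f x)) (v w : E) :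
    extD (pull f α) x v w = extD α (f x) (fderiv ℝ f x v) (fderiv ℝ f x w) := by
  have h1 : HasFDerivAt (fun x => α (f x)) ((fderiv ℝ α (f x)).comp (fderiv ℝ f x)) x :=
    hα.hasFDerivAt.comp x (hf.differentiableAt (by simp)).hasFDerivAt
  have h2 : HasFDerivAt (fderiv ℝ f) (fderiv ℝ (fderiv ℝ f) x) x :=
    ((hf.fderiv_right (m := 1) one_add_one_le).differentiableAt (by simp)).hasFDerivAt
  have h3 := h1.clm_comp h2
  have h4 : fderiv ℝ (pull f α) x = _ := h3.fderiv
  unfold extD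
  rw [h4]
  simp only [add_apply, ContinuousLinearMap.coe_comp, Function.comp_apply,
    ContinuousLinearMap.compL_apply, ContinuousLinearMap.flip_apply]
  rw [symm_snd hf v w]
  abel

theorem extD_add {α β : E → E →L[ℝ] G} {x : E} (hα : DifferentiableAt ℝ α x)
    (hβ : DifferentiableAt ℝ β x) (v w : E) :
    extD (fun y => α y + β y) x v w = extD α x v w + extD β x v w := by
  unfold extD
  rw [fderiv_fun_add hα hβ]
  simp only [add_apply]
  abel

theorem extD_neg {α : E → E →L[ℝ] G} {x : E} (v w : E) :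
    extD (fun y => -α y) x v w = -extD α x v w := by
  unfold extD
  rw [fderiv_fun_neg]
  simp only [neg_apply]
  abel

theorem extD_fderiv {f : E → G} {x : E} (hf : ContDiffAt ℝ ∞ f x) (v w : E) :
    extD (fun y => fderiv ℝ f y) x v w = 0 := by
  unfold extD
  rw [sub_eq_zero]
  exact hf.isSymmSndFDerivAt min_le v w

end General

section Complex

variable {E : Type} [NormedAddCommGroup E] [NormedSpace ℂ E]

/-- The product rule. -/
theorem extD_mul {g : E → ℂ} {α : E → E →L[ℝ] ℂ} {x : E} (hg : DifferentiableAt ℝ g x)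
    (hα : DifferentiableAt ℝ α x) (v w : E) :
    extD (fun y => g y • α y) x v w =
      fderiv ℝ g x v * α x w - fderiv ℝ g x w * α x v + g x * extD α x v w := by
  unfold extD
  rw [fderiv_fun_smul hg hα]
  simp only [add_apply, smul_apply, smul_eq_mul,
    ContinuousLinearMap.smulRight_apply]
  ring

/-- Logarithmic derivatives are closed. -/
theorem extD_log {g : E → ℂ} {x : E} (hg : ContDiffAt ℝ ∞ g x) (h0 : g x ≠ 0) (v w : E) :
    extD (fun y => (g y)⁻¹ • fderiv ℝ g y) x v w = 0 := by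
  have h1 : DifferentiableAt ℝ g x := hg.differentiableAt (by simp)
  have h2 : DifferentiableAt ℝ (fun y => fderiv ℝ g y) x :=
    (hg.fderiv_right (m := 1) one_add_one_le).differentiableAt (by simp)
  have h3 : DifferentiableAt ℝ (fun y => (g y)⁻¹) x := h1.inv h0
  rw [extD_mul h3 h2, extD_fderiv hg, mul_zero, add_zero]
  have h4 : ∀ u, fderiv ℝ (fun y => (g y)⁻¹) x u = -(g x ^ 2)⁻¹ * fderiv ℝ g x u := by
    intro u
    have h5 : HasFDerivAt (fun y => (g y)⁻¹) _ x :=
      (hasDerivAt_inv h0).comp_hasFDerivAt x h1.hasFDerivAt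
    rw [h5.fderiv]
    simp
  rw [h4, h4]
  ring

/-- The complexification of a real form. -/
noncomputable def cx (θ : E → E →L[ℝ] ℝ) (x : E) : E →L[ℝ] ℂ := Complex.ofRealCLM.comp (θ x)

theorem cx_apply (θ : E → E →L[ℝ] ℝ) (x v : E) : cx θ x v = (θ x v : ℂ) := rfl

theorem cx_smooth {θ : E → E →L[ℝ] ℝ} {x : E} (h : ContDiffAt ℝ ∞ θ x) :
    ContDiffAt ℝ ∞ (cx θ) x := contDiffAt_const.clm_comp h

theorem extD_cx {θ : E → E →L[ℝ] ℝ} {x : E} (h : DifferentiableAt ℝ θ x) (v w : E) :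
    extD (cx θ) x v w = ((extD θ x v w : ℝ) : ℂ) := by
  have h1 : HasFDerivAt (cx θ) _ x :=
    (hasFDerivAt_const Complex.ofRealCLM x).clm_comp h.hasFDerivAt
  unfold extD
  rw [h1.fderiv]
  simp [ContinuousLinearMap.compL_apply]

end Complex

end Pool.Agent.helper65.CR
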