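import Pool.Agent.helper65.CR.Model

/-!
# Integration on the sphere
-/

open Filter Topology Set Metric MeasureTheory
open scoped ContDiff ComplexConjugate

namespace Pool.Agent.helper65.CR

/-- The square of the Euclidean norm. -/
def nsq (q : ℂ × ℂ) : ℝ := Complex.normSq q.1 + Complex.normSq q.2

theorem nsq_coe (q : ℂ × ℂ) : (nsq q : ℂ) = q.1 * conj q.1 + q.2 * conj q.2 := by
  unfold nsq
  rw [Complex.mul_conj, Complex.mul_conj]
  push_cast
  rfl

theorem mem_S_iff {q : ℂ × ℂ} : q ∈ S ↔ nsq q = 1 := by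
  rw [mem_S, ← nsq_coe]
  exact_mod_cast Iff.rfl

theorem continuous_nsq : Continuous nsq := by
  unfold nsq
  exact (Complex.continuous_normSq.comp continuous_fst).add
    (Complex.continuous_normSq.comp continuous_snd)

theorem nsq_nonneg (q : ℂ × ℂ) : 0 ≤ nsq q := add_nonneg (Complex.normSq_nonneg _)
  (Complex.normSq_nonneg _)

theorem nsq_eq_zero {q : ℂ × ℂ} (h : nsq q = 0) : q = 0 := by
  have h1 := Complex.normSq_nonneg q.1
  have h2 := Complex.normSq_nonneg q.2
  unfold nsq at h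
  refine Prod.ext (Complex.normSq_eq_zero.1 (by linarith)) (Complex.normSq_eq_zero.1 (by linarith))

theorem nsq_smul (c : ℝ) (q : ℂ × ℂ) : nsq (c • q) = c ^ 2 * nsq q := by
  unfold nsq
  simp only [Prod.smul_fst, Prod.smul_snd, Complex.real_smul, Complex.normSq_mul,
    Complex.normSq_ofReal]
  ring

theorem norm_le_of_nsq {q : ℂ × ℂ} {c : ℝ} (hc : 0 ≤ c) (h : nsq q ≤ c ^ 2) : ‖q‖ ≤ c := by
  have h1 := Complex.normSq_nonneg q.1
  have h2 := Complex.normSq_nonneg q.2
  unfold nsq at h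
  rw [Prod.norm_def, max_le_iff]
  simp only [Complex.normSq_eq_norm_sq] at h1 h h2
  exact ⟨abs_le_of_sq_le_sq' (by linarith) hc |>.2, abs_le_of_sq_le_sq' (by linarith) hc |>.2⟩

theorem isClosed_S : IsClosed S := by
  have : S = nsq ⁻¹' {1} := by
    ext q
    rw [mem_S_iff]
    rfl
  rw [this]
  exact isClosed_singleton.preimage continuous_nsq

theorem isCompact_S : IsCompact S := by
  refine (isCompact_closedBall (0 : ℂ × ℂ) 1).of_isClosed_subset isClosed_S fun q hq => ?_
  rw [mem_closedBall_zero_iff]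
  exact norm_le_of_nsq zero_le_one (by rw [mem_S_iff.1 hq]; norm_num)

/-- The left invariant vector fields. -/
noncomputable def fld (ζ : ℂ) (x : ℝ) : (ℂ × ℂ) →ₗ[ℝ] (ℂ × ℂ) where
  toFun q := tv q ζ x
  map_add' p q := by
    refine Prod.ext ?_ ?_ <;> simp [tv] <;> ring
  map_smul' c q := by
    refine Prod.ext ?_ ?_ <;> simp [tv] <;> ring

theorem fld_apply (ζ : ℂ) (x : ℝ) (q : ℂ × ℂ) : fld ζ x q = tv q ζ x := rfl

/-- The rotations generated by the fields. -/
noncomputable def rot (ζ : ℂ) (x s : ℝ) : (ℂ × ℂ) →ₗ[ℝ] (ℂ × ℂ) :=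
  Real.cos s • LinearMap.id + Real.sin s • fld ζ x

theorem rot_apply (ζ : ℂ) (x s : ℝ) (q : ℂ × ℂ) :
    rot ζ x s q = Real.cos s • q + Real.sin s • tv q ζ x := rfl

theorem rot_zero (ζ : ℂ) (x : ℝ) (q : ℂ × ℂ) : rot ζ x 0 q = q := by
  rw [rot_apply]
  simp

theorem tv_tv (q : ℂ × ℂ) (ζ : ℂ) (x : ℝ) :
    tv (tv q ζ x) ζ x = (-(Complex.normSq ζ + x ^ 2) : ℝ) • q := by
  have h := Complex.mul_conj ζ
  have hI := Complex.I_sq
  refine Prod.ext ?_ ?_
  · simp [tv]
    rw [← h]
    linear_combination (x ^ 2 * q.1 : ℂ) * hI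
  · simp [tv]
    rw [← h]
    linear_combination (x ^ 2 * q.2 : ℂ) * hI

theorem hasDerivAt_rot {ζ : ℂ} {x : ℝ} (h : Complex.normSq ζ + x ^ 2 = 1) (q : ℂ × ℂ) (s : ℝ) :
    HasDerivAt (fun s => rot ζ x s q) (tv (rot ζ x s q) ζ x) s := by
  have h1 : HasDerivAt (fun s => rot ζ x s q) (-Real.sin s • q + Real.cos s • tv q ζ x) s :=
    ((Real.hasDerivAt_cos s).smul_const q).add ((Real.hasDerivAt_sin s).smul_const _)
  have h2 : tv (rot ζ x s q) ζ x = -Real.sin s • q + Real.cos s • tv q ζ x := by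
    have h3 : tv (rot ζ x s q) ζ x = fld ζ x (rot ζ x s q) := rfl
    rw [h3, rot_apply, map_add, map_smul, map_smul, fld_apply, fld_apply, tv_tv, h, smul_smul,
      add_comm]
    congr 1
    ring_nf
  rw [h2]
  exact h1

theorem nsq_rot {ζ : ℂ} {x : ℝ} (h : Complex.normSq ζ + x ^ 2 = 1) (s : ℝ) (q : ℂ × ℂ) :
    nsq (rot ζ x s q) = nsq q := by
  have hz : ζ * conj ζ + x ^ 2 = 1 := by
    rw [Complex.mul_conj]
    exact_mod_cast h
  have hI := Complex.I_sq
  have hcs : (Real.cos s : ℂ) ^ 2 + (Real.sin s : ℂ) ^ 2 = 1 := by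
    exact_mod_cast Real.cos_sq_add_sin_sq s
  have : (nsq (rot ζ x s q) : ℂ) = nsq q := by
    rw [nsq_coe, nsq_coe, rot_apply]
    obtain ⟨a, b⟩ := q
    simp only [tv, Prod.smul_mk, Prod.mk_add_mk, Complex.real_smul, map_add, map_mul, map_neg,
      Complex.conj_ofReal, Complex.conj_I, Complex.conj_conj]
    linear_combination (a * conj a + b * conj b) * hcs +
      ((Real.sin s : ℂ) ^ 2 * (a * conj a + b * conj b)) * hz -
      (x ^ 2 * (Real.sin s : ℂ) ^ 2 * (a * conj a + b * conj b)) * hI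
  exact_mod_cast this

theorem rot_mem {ζ : ℂ} {x : ℝ} (h : Complex.normSq ζ + x ^ 2 = 1) (s : ℝ) {q : ℂ × ℂ}
    (hq : q ∈ S) : rot ζ x s q ∈ S := by
  rw [mem_S_iff, nsq_rot h]
  exact mem_S_iff.1 hq

instance : (volume : Measure (ℂ × ℂ)).IsAddHaarMeasure :=
  inferInstanceAs ((volume : Measure ℂ).prod (volume : Measure ℂ)).IsAddHaarMeasure

theorem rot_measurePreserving {ζ : ℂ} {x : ℝ} (h : Complex.normSq ζ + x ^ 2 = 1) (s : ℝ) :
    MeasurePreserving (rot ζ x s) (volume : Measure (ℂ × ℂ)) volume := by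
  have hinj : Function.Injective (rot ζ x s) := by
    rw [injective_iff_map_eq_zero]
    intro q hq
    have h1 := nsq_rot h s q
    rw [hq] at h1
    refine nsq_eq_zero ?_
    rw [← h1]
    simp [nsq]
  have hdet : LinearMap.det (rot ζ x s) ≠ 0 := by
    intro h0
    have h1 := LinearMap.bot_lt_ker_of_det_eq_zero h0
    rw [LinearMap.ker_eq_bot.2 hinj] at h1
    exact lt_irrefl _ h1
  set B : Set (ℂ × ℂ) := {q | nsq q < 1} with hB
  have hBo : IsOpen B := isOpen_lt continuous_nsq continuous_const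
  have hB0 : (volume : Measure (ℂ × ℂ)) B ≠ 0 :=
    (hBo.measure_pos _ ⟨0, by simp [hB, nsq]⟩).ne'
  have hBt : (volume : Measure (ℂ × ℂ)) B ≠ ⊤ := by
    refine ((measure_mono (fun q hq => ?_)).trans_lt
      (isCompact_closedBall (0 : ℂ × ℂ) 1).measure_lt_top).ne
    rw [mem_closedBall_zero_iff]
    have : nsq q < 1 := hq
    exact norm_le_of_nsq zero_le_one (by linarith)
  have hpre : (rot ζ x s) ⁻¹' B = B := by
    ext q
    change nsq (rot ζ x s q) < 1 ↔ nsq q < 1
    rw [nsq_rot h]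
  have hc := Measure.addHaar_preimage_linearMap (volume : Measure (ℂ × ℂ)) hdet B
  rw [hpre] at hc
  have hc1 : ENNReal.ofReal |(LinearMap.det (rot ζ x s))⁻¹| = 1 := by
    have h2 : ENNReal.ofReal |(LinearMap.det (rot ζ x s))⁻¹| * volume B = 1 * volume B := by
      rw [one_mul]
      exact hc.symm
    exact (ENNReal.mul_left_inj hB0 hBt).1 h2
  have hcont : Continuous (rot ζ x s) := LinearMap.continuous_of_finiteDimensional _
  refine ⟨hcont.measurable, ?_⟩
  rw [Measure.map_linearMap_addHaar_eq_smul_addHaar _ hdet, hc1, one_smul]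

/-- The annulus. -/
def Ann : Set (ℂ × ℂ) := {q | 1 ≤ nsq q ∧ nsq q ≤ 4}

/-- The radial projection. -/
noncomputable def pr (q : ℂ × ℂ) : ℂ × ℂ := (Real.sqrt (nsq q))⁻¹ • q

theorem measurable_pr : Measurable pr := by
  unfold pr
  exact ((Real.continuous_sqrt.comp continuous_nsq).measurable.inv).smul measurable_id

theorem pr_mem {q : ℂ × ℂ} (hq : 0 < nsq q) : pr q ∈ S := by
  rw [mem_S_iff, pr, nsq_smul, inv_pow, Real.sq_sqrt hq.le]
  exact inv_mul_cancel₀ hq.ne'

/-- The invariant measure on the sphere. -/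
noncomputable def μ : Measure (ℂ × ℂ) := (volume.restrict Ann).map pr

theorem isClosed_Ann : IsClosed Ann :=
  (isClosed_le continuous_const continuous_nsq).inter (isClosed_le continuous_nsq continuous_const)

theorem isCompact_Ann : IsCompact Ann := by
  refine (isCompact_closedBall (0 : ℂ × ℂ) 2).of_isClosed_subset isClosed_Ann fun q hq => ?_
  rw [mem_closedBall_zero_iff]
  exact norm_le_of_nsq zero_le_two (by have := hq.2; norm_num; exact this)

instance : IsFiniteMeasure μ := by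
  have : IsFiniteMeasure ((volume : Measure (ℂ × ℂ)).restrict Ann) :=
    ⟨by rw [Measure.restrict_apply_univ]; exact isCompact_Ann.measure_lt_top⟩
  unfold μ
  infer_instance

theorem μ_compl : μ Sᶜ = 0 := by
  rw [μ, Measure.map_apply measurable_pr isClosed_S.measurableSet.compl,
    Measure.restrict_apply (measurable_pr isClosed_S.measurableSet.compl)]
  have : pr ⁻¹' Sᶜ ∩ Ann = ∅ := by
    refine Set.eq_empty_of_forall_notMem fun q hq => hq.1 (pr_mem ?_)
    have := hq.2.1
    linarith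
  rw [this, measure_empty]

theorem μ_restrict : μ.restrict S = μ :=
  Measure.restrict_eq_self_of_ae_mem (mem_ae_iff.2 μ_compl)

theorem ae_mem_S : ∀ᵐ q ∂μ, q ∈ S := mem_ae_iff.2 μ_compl

theorem μ_univ_ne : μ univ ≠ 0 := by
  rw [μ, Measure.map_apply measurable_pr MeasurableSet.univ, preimage_univ,
    Measure.restrict_apply_univ]
  have ho : IsOpen {q : ℂ × ℂ | 1 < nsq q ∧ nsq q < 4} :=
    (isOpen_lt continuous_const continuous_nsq).inter (isOpen_lt continuous_nsq continuous_const)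
  have hne : {q : ℂ × ℂ | 1 < nsq q ∧ nsq q < 4}.Nonempty := by
    refine ⟨((3 / 2 : ℝ), 0), ?_⟩
    simp only [nsq, mem_ofPred_eq, Complex.normSq_ofReal, map_zero]
    norm_num
  have h1 := ho.measure_pos (volume : Measure (ℂ × ℂ)) hne
  refine (h1.trans_le (measure_mono ?_)).ne'
  exact fun q hq => ⟨hq.1.le, hq.2.le⟩

theorem map_rot {ζ : ℂ} {x : ℝ} (h : Complex.normSq ζ + x ^ 2 = 1) (s : ℝ) :
    μ.map (rot ζ x s) = μ := by
  have hm := rot_measurePreserving h s
  have hpr : ∀ q, rot ζ x s (pr q) = pr (rot ζ x s q) := by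
    intro q
    unfold pr
    rw [nsq_rot h, map_smul]
  have hA : (rot ζ x s) ⁻¹' Ann = Ann := by
    ext q
    change 1 ≤ nsq (rot ζ x s q) ∧ nsq (rot ζ x s q) ≤ 4 ↔ _
    rw [nsq_rot h]
    rfl
  have h1 : (volume.restrict Ann).map (rot ζ x s) = volume.restrict Ann := by
    conv_lhs => rw [← hA]
    rw [← Measure.restrict_map hm.measurable isClosed_Ann.measurableSet, hm.map_eq]
  rw [μ, Measure.map_map hm.measurable measurable_pr]
  have h2 : (⇑(rot ζ x s) ∘ pr) = pr ∘ ⇑(rot ζ x s) := funext hpr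
  rw [h2, ← Measure.map_map measurable_pr hm.measurable, h1]

theorem integrable_of_continuousOn {g : ℂ × ℂ → ℂ} (hg : ContinuousOn g S) : Integrable g μ := by
  have h1 : IntegrableOn g S μ := hg.integrableOn_compact isCompact_S
  rwa [IntegrableOn, μ_restrict] at h1

/-- A function which is smooth near the sphere. -/
def SmS (f : ℂ × ℂ → ℂ) : Prop := ∀ q ∈ S, ContDiffAt ℝ ∞ f q

theorem SmS.continuousOn {f : ℂ × ℂ → ℂ} (hf : SmS f) : ContinuousOn f S :=
  fun q hq => (hf q hq).continuousAt.continuousWithinAt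

theorem SmS.differentiableAt {f : ℂ × ℂ → ℂ} (hf : SmS f) {q : ℂ × ℂ} (hq : q ∈ S) :
    DifferentiableAt ℝ f q := (hf q hq).differentiableAt (by simp)

/-- The derivative along a left invariant field. -/
noncomputable def der (ζ : ℂ) (x : ℝ) (f : ℂ × ℂ → ℂ) (q : ℂ × ℂ) : ℂ :=
  fderiv ℝ f q (tv q ζ x)

theorem contDiff_tv (ζ : ℂ) (x : ℝ) : ContDiff ℝ ∞ fun q : ℂ × ℂ => tv q ζ x :=
  (LinearMap.toContinuousLinearMap (fld ζ x)).contDiff

theorem SmS.der {f : ℂ × ℂ → ℂ} (hf : SmS f) (ζ : ℂ) (x : ℝ) : SmS (der ζ x f) := by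
  intro q hq
  have h1 : ContDiffAt ℝ ∞ (fderiv ℝ f) q := (hf q hq).fderiv_right (by simp)
  exact h1.clm_apply (contDiff_tv ζ x).contDiffAt

/-- Stokes' theorem on the sphere. -/
theorem integral_der_unit {ζ : ℂ} {x : ℝ} (h : Complex.normSq ζ + x ^ 2 = 1)
    {f : ℂ × ℂ → ℂ} (hf : SmS f) : ∫ q, der ζ x f q ∂μ = 0 := by
  have hd := (hf.der ζ x).continuousOn
  obtain ⟨C, hC⟩ := isCompact_S.exists_bound_of_continuousOn hd
  have hcomp : ∀ s, ContinuousOn (fun q => f (rot ζ x s q)) S := by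
    intro s
    refine hf.continuousOn.comp
      (LinearMap.continuous_of_finiteDimensional (rot ζ x s)).continuousOn ?_
    exact fun q hq => rot_mem h s hq
  have key := hasDerivAt_integral_of_dominated_loc_of_deriv_le (μ := μ) (x₀ := (0 : ℝ))
    (F := fun s q => f (rot ζ x s q)) (F' := fun s q => der ζ x f (rot ζ x s q))
    (bound := fun _ => C) (s := univ) univ_mem
    (Eventually.of_forall fun s => (integrable_of_continuousOn (hcomp s)).aestronglyMeasurable)
    (integrable_of_continuousOn (hcomp 0))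
    (by
      simp only [rot_zero]
      exact (integrable_of_continuousOn hd).aestronglyMeasurable)
    (ae_mem_S.mono fun q hq s _ => hC _ (rot_mem h s hq))
    (integrable_const C)
    (ae_mem_S.mono fun q hq s _ => by
      have h1 := (hf.differentiableAt (rot_mem h s hq)).hasFDerivAt
      exact h1.comp_hasDerivAt s (hasDerivAt_rot h q s))
  have hconst : ∀ s : ℝ, ∫ q, f (rot ζ x s q) ∂μ = ∫ q, f q ∂μ := by
    intro s
    have h1 : ∫ q, f q ∂(μ.map (rot ζ x s)) = ∫ q, f (rot ζ x s q) ∂μ := by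
      refine integral_map
        (LinearMap.continuous_of_finiteDimensional (rot ζ x s)).measurable.aemeasurable ?_
      rw [map_rot h]
      exact (integrable_of_continuousOn hf.continuousOn).aestronglyMeasurable
    rw [← h1, map_rot h]
  have h2 := key.2
  simp only [hconst, rot_zero] at h2
  exact h2.unique (hasDerivAt_const _ _)

end Pool.Agent.helper65.CR
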